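import Mathlib

/-!
MP_7aba51_co, part II (evaluation of the double cubic character sum).
-/

set_option autoImplicit false

open Classical

namespace Pool.Agent.Helper61.Hemi

variable {k : Type} [Field k] [Fintype k]

omit [Fintype k] in
theorem ringChar_ne_two (h2 : (2 : k) ≠ 0) : ringChar k ≠ 2 := by
  intro h
  apply h2
  have : ((2 : ℕ) : k) = 0 := by
    rw [← h]; exact ringChar.Nat.cast_ringChar
  exact_mod_cast this


/-- `∑_t η(t² - Δ) = -1` for `Δ ≠ 0`. -/
theorem sum_sq_sub (h2 : (2 : k) ≠ 0) (Δ : k) (hΔ : Δ ≠ 0) :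
    ∑ t : k, quadraticChar k (t ^ 2 - Δ) = -1 := by
  have h1 : ∑ t : k, (quadraticChar k (t ^ 2 - Δ) + 1) = (Fintype.card k : ℤ) - 1 := by
    have e1 : ∀ t : k, quadraticChar k (t ^ 2 - Δ) + 1 =
        ∑ y : k, if y ^ 2 = t ^ 2 - Δ then (1 : ℤ) else 0 := by
      intro t
      rw [← quadraticChar_card_sqrts (ringChar_ne_two h2), Finset.sum_ite, Finset.sum_const_zero,
        add_zero, Finset.sum_const, nsmul_eq_mul, mul_one]
      congr 2
      ext y
      simp
    rw [Finset.sum_congr rfl fun t _ => e1 t, ← Finset.sum_product', Finset.sum_ite,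
      Finset.sum_const_zero, add_zero, Finset.sum_const, nsmul_eq_mul, mul_one]
    have hc : (Finset.univ.filter (fun u : k => u ≠ 0)).card = Fintype.card k - 1 := by
      rw [Finset.filter_ne', Finset.card_erase_of_mem (Finset.mem_univ _), Finset.card_univ]
    have hq : 1 ≤ Fintype.card k := Fintype.card_pos
    have : ((Fintype.card k : ℤ) - 1) = ((Fintype.card k - 1 : ℕ) : ℤ) := by
      push_cast [hq]; ring
    rw [this, ← hc]
    congr 1
    refine Finset.card_bij' (fun p _ => p.1 - p.2)
      (fun u _ => ((u + Δ / u) / 2, (Δ / u - u) / 2)) ?_ ?_ ?_ ?_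
    · rintro ⟨t, y⟩ hp
      simp only [Finset.univ_product_univ, Finset.mem_filter, Finset.mem_univ, true_and] at hp ⊢
      intro h0
      apply hΔ
      have : t = y := by linear_combination h0
      rw [this] at hp
      linear_combination hp
    · intro u hu
      simp only [Finset.univ_product_univ, Finset.mem_filter, Finset.mem_univ, true_and] at hu ⊢
      field_simp
      ring
    · rintro ⟨t, y⟩ hp
      simp only [Finset.univ_product_univ, Finset.mem_filter, Finset.mem_univ, true_and] at hp ⊢
      have h0 : t - y ≠ 0 := by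
        intro h0
        apply hΔ
        have : t = y := by linear_combination h0
        rw [this] at hp
        linear_combination hp
      have h3 : Δ / (t - y) = t + y := by
        rw [div_eq_iff h0]; linear_combination hp
      rw [h3]
      ext
      · field_simp
        ring
      · field_simp
        ring
    · intro u hu
      simp only [Finset.univ_product_univ, Finset.mem_filter, Finset.mem_univ, true_and] at hu ⊢
      field_simp
      ring
  rw [Finset.sum_add_distrib] at h1
  simp only [Finset.sum_const, Finset.card_univ, nsmul_eq_mul, mul_one] at h1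
  linarith

theorem sum_sq :
    ∑ t : k, quadraticChar k (t ^ 2) = (Fintype.card k : ℤ) - 1 := by
  rw [← Finset.sum_erase_add _ _ (Finset.mem_univ (0 : k))]
  rw [Finset.sum_congr rfl (g := fun _ => (1 : ℤ))]
  · rw [Finset.sum_const, Finset.card_erase_of_mem (Finset.mem_univ _), Finset.card_univ,
      nsmul_eq_mul, mul_one]
    have hq : 1 ≤ Fintype.card k := Fintype.card_pos
    push_cast [hq]
    simp
  · intro t ht
    have : t ≠ 0 := (Finset.mem_erase.1 ht).1
    rw [map_pow, quadraticChar_sq_one this]

theorem chi_four (h2 : (2 : k) ≠ 0) : quadraticChar k 4 = 1 := by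
  have : (4 : k) = 2 ^ 2 := by norm_num
  rw [this, map_pow, quadraticChar_sq_one h2]

/-- Sum of the quadratic character over a quadratic polynomial. -/
theorem sum_quadratic (h2 : (2 : k) ≠ 0) (a b c : k) (ha : a ≠ 0) :
    ∑ h : k, quadraticChar k (a * h ^ 2 + b * h + c) =
      quadraticChar k a * (if b ^ 2 - 4 * a * c = 0 then (Fintype.card k : ℤ) - 1 else -1) := by
  have e1 : ∀ h : k, quadraticChar k (a * h ^ 2 + b * h + c) =
      quadraticChar k a * quadraticChar k ((2 * a * h + b) ^ 2 - (b ^ 2 - 4 * a * c)) := by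
    intro h
    have : (2 * a * h + b) ^ 2 - (b ^ 2 - 4 * a * c) = 4 * a * (a * h ^ 2 + b * h + c) := by ring
    rw [this, map_mul, map_mul, chi_four h2, one_mul, ← mul_assoc, ← sq,
      quadraticChar_sq_one ha, one_mul]
  rw [Finset.sum_congr rfl fun h _ => e1 h, ← Finset.mul_sum]
  congr 1
  have h2a : 2 * a ≠ 0 := mul_ne_zero h2 ha
  have e2 : ∑ h : k, quadraticChar k ((2 * a * h + b) ^ 2 - (b ^ 2 - 4 * a * c)) =
      ∑ t : k, quadraticChar k (t ^ 2 - (b ^ 2 - 4 * a * c)) := by
    refine Finset.sum_bij' (fun h _ => 2 * a * h + b) (fun t _ => (t - b) / (2 * a))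
      (fun _ _ => Finset.mem_univ _) (fun _ _ => Finset.mem_univ _) ?_ ?_ ?_
    · intro h _
      field_simp
      ring
    · intro t _
      field_simp
      ring
    · intro h _
      rfl
  rw [e2]
  split_ifs with hd
  · rw [hd]
    simp only [sub_zero]
    exact sum_sq
  · exact sum_sq_sub h2 _ hd

theorem sum_linear (h2 : (2 : k) ≠ 0) (a b : k) (ha : a ≠ 0) :
    ∑ h : k, quadraticChar k (a * h + b) = 0 := by
  rw [← quadraticChar_sum_zero (ringChar_ne_two h2)]
  refine Finset.sum_bij' (fun h _ => a * h + b) (fun t _ => (t - b) / a)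
      (fun _ _ => Finset.mem_univ _) (fun _ _ => Finset.mem_univ _) ?_ ?_ ?_
  · intro h _
    field_simp
    ring
  · intro t _
    field_simp
    ring
  · intro h _
    rfl

/-- The quartic whose root gives the value. -/
def quartic (D s C M : k) : k :=
  3 * M ^ 4 - 6 * (D - s) * M ^ 2 - 12 * C * M - (D + s) ^ 2

/-- EV1: the double sum. -/
theorem ev1 (h2 : (2 : k) ≠ 0) (h3 : (3 : k) ≠ 0) (hm1 : quadraticChar k (-1) = 1) (D s C : k) :
    ∑ h : k, ∑ P : k, quadraticChar k (h ^ 3 + P ^ 3 - D * h + s * P - C) =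
      (Fintype.card k : ℤ) *
        ((∑ M ∈ Finset.univ.filter (fun M : k => M ≠ 0 ∧ quartic D s C M = 0),
          quadraticChar k (3 * M)) + if D + s = 0 then quadraticChar k C else 0) := by
  have e1 : ∀ h : k, ∑ P : k, quadraticChar k (h ^ 3 + P ^ 3 - D * h + s * P - C) =
      ∑ M : k, quadraticChar k (3 * M * h ^ 2 + (-(3 * M ^ 2 + D + s)) * h +
        (M ^ 3 + s * M - C)) := by
    intro h
    refine Finset.sum_bij' (fun P _ => P + h) (fun M _ => M - h)
      (fun _ _ => Finset.mem_univ _) (fun _ _ => Finset.mem_univ _) ?_ ?_ ?_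
    · intro P _
      simp
    · intro M _
      simp
    · intro P _
      congr 1
      ring
  rw [Finset.sum_congr rfl fun h _ => e1 h, Finset.sum_comm]
  rw [← Finset.sum_erase_add _ _ (Finset.mem_univ (0 : k)), mul_add]
  congr 1
  · have e2 : ∀ M ∈ Finset.univ.erase (0 : k), ∑ h : k, quadraticChar k (3 * M * h ^ 2 +
        (-(3 * M ^ 2 + D + s)) * h + (M ^ 3 + s * M - C)) =
        (Fintype.card k : ℤ) * (if quartic D s C M = 0 then quadraticChar k (3 * M) else 0) -
          quadraticChar k (3 * M) := by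
      intro M hM
      have hM0 : M ≠ 0 := (Finset.mem_erase.1 hM).1
      rw [sum_quadratic h2 _ _ _ (mul_ne_zero h3 hM0)]
      have hd : (-(3 * M ^ 2 + D + s)) ^ 2 - 4 * (3 * M) * (M ^ 3 + s * M - C) =
          -(quartic D s C M) := by
        unfold quartic; ring
      rw [hd, neg_eq_zero]
      split_ifs
      · ring
      · ring
    rw [Finset.sum_congr rfl e2, Finset.sum_sub_distrib, ← Finset.mul_sum]
    have e3 : ∑ M ∈ Finset.univ.erase (0 : k), quadraticChar k (3 * M) = 0 := by
      have h0 := sum_linear h2 3 (0 : k) h3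
      rw [← Finset.sum_erase_add _ _ (Finset.mem_univ (0 : k))] at h0
      simp only [add_zero, mul_zero, MulChar.map_zero] at h0
      simpa using h0
    rw [e3, sub_zero]
    congr 1
    rw [← Finset.sum_filter]
    refine Finset.sum_congr ?_ fun _ _ => rfl
    ext M
    simp [and_comm]
  · have e4 : ∀ h : k, quadraticChar k (3 * (0 : k) * h ^ 2 + (-(3 * (0 : k) ^ 2 + D + s)) * h +
        ((0 : k) ^ 3 + s * 0 - C)) = quadraticChar k ((-(D + s)) * h + (-C)) := by
      intro h
      congr 1
      ring
    rw [Finset.sum_congr rfl fun h _ => e4 h]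
    split_ifs with h0
    · rw [h0]
      simp only [neg_zero, zero_mul, zero_add]
      rw [Finset.sum_const, Finset.card_univ, nsmul_eq_mul]
      congr 1
      have : -C = (-1) * C := by ring
      rw [this, map_mul, hm1, one_mul]
    · rw [sum_linear h2 _ _ (neg_ne_zero.2 h0), mul_zero]

end Pool.Agent.Helper61.Hemi
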