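import Mathlib
import Pool.Agent.Helper93.Hemi.Base
import Pool.Agent.Helper61.Hemi.Eval

/-!
MP_7aba51_co, part II: sums over the norm-one group.
-/

set_option autoImplicit false
set_option linter.unusedSectionVars false

open Classical

namespace Pool.Agent.Helper61.Hemi

open Pool.Agent.Helper93.Hemi

variable {k E : Type} [Field k] [Fintype k] [Field E] [Fintype E] [Algebra k E]

/-- The norm-one elements. -/
noncomputable def E1 (k E : Type) [Field k] [Fintype k] [Field E] [Fintype E] [Algebra k E] :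
    Finset E := Finset.univ.filter (fun x => x * cj k E x = 1)

theorem mem_E1 {x : E} : x ∈ E1 k E ↔ x * cj k E x = 1 := by simp [E1]

theorem E1_ne {x : E} (hx : x ∈ E1 k E) : x ≠ 0 := by
  rintro rfl
  have := mem_E1.1 hx
  rw [zero_mul] at this
  exact zero_ne_one this

theorem E1_cj {x : E} (hx : x ∈ E1 k E) : cj k E x = x⁻¹ :=
  eq_inv_of_mul_eq_one_right (mem_E1.1 hx)

theorem E1_mul {x y : E} (hx : x ∈ E1 k E) (hy : y ∈ E1 k E) : x * y ∈ E1 k E := by
  rw [mem_E1] at *
  rw [map_mul]
  linear_combination hx * (y * cj k E y) + hy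

theorem E1_pow {x : E} (hx : x ∈ E1 k E) (n : ℕ) : x ^ n ∈ E1 k E := by
  rw [mem_E1] at *
  rw [map_pow, ← mul_pow, hx, one_pow]

theorem E1_inv {x : E} (hx : x ∈ E1 k E) : x⁻¹ ∈ E1 k E := by
  rw [mem_E1] at *
  rw [map_inv₀, ← mul_inv, hx, inv_one]

theorem E1_neg {x : E} (hx : x ∈ E1 k E) : -x ∈ E1 k E := by
  rw [mem_E1] at *
  rw [map_neg]
  linear_combination hx

/-- `∑_α η(N α) = 0`. -/
theorem sum_norm_char (h2 : (2 : k) ≠ 0) :
    ∑ α : Eˣ, quadraticChar k (nm k E (α : E)) = 0 := by
  obtain ⟨a, ha⟩ := quadraticChar_exists_neg_one (ringChar_ne_two h2)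
  have ha0 : a ≠ 0 := by
    rintro rfl
    rw [MulChar.map_zero] at ha
    norm_num at ha
  obtain ⟨γ, hγ⟩ := FiniteField.norm_surjective k E a
  have hγ0 : γ ≠ 0 := by
    rintro rfl
    rw [Algebra.norm_zero] at hγ
    exact ha0 hγ.symm
  have e : ∑ α : Eˣ, quadraticChar k (nm k E (α : E)) =
      ∑ α : Eˣ, -quadraticChar k (nm k E (α : E)) := by
    rw [← Equiv.sum_comp (Equiv.mulLeft (Units.mk0 γ hγ0))]
    refine Finset.sum_congr rfl fun α _ => ?_
    simp only [Equiv.coe_mulLeft, Units.val_mul, Units.val_mk0]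
    rw [map_mul, map_mul]
    have : nm k E γ = a := hγ
    rw [this, ha]
    ring
  rw [Finset.sum_neg_distrib] at e
  linarith

/-- The fibres of `α ↦ ᾱ/α`. -/
theorem sum_ratio (h : Module.finrank k E = 2) (G : E → ℤ) :
    ∑ α : Eˣ, G (cj k E (α : E) / (α : E)) = ((Fintype.card k : ℤ) - 1) * ∑ x ∈ E1 k E, G x := by
  have hmem : ∀ α : Eˣ, cj k E (α : E) / (α : E) ∈ E1 k E := by
    intro α
    have h0 : (α : E) ≠ 0 := α.ne_zero
    have h1 : cj k E (α : E) ≠ 0 := fun h => h0 (cj_eq_zero.1 h)
    rw [mem_E1, map_div₀, cj_cj h]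
    field_simp
  rw [← Finset.sum_fiberwise_of_maps_to (s := Finset.univ) (t := E1 k E)
    (g := fun α : Eˣ => cj k E (α : E) / (α : E)) (fun α _ => hmem α), Finset.mul_sum]
  have hq1 : 1 < Fintype.card k := Fintype.one_lt_card
  -- upper bound for the fibres
  have hkey : ∀ x ∈ E1 k E, (Finset.univ.filter
      (fun α : Eˣ => cj k E (α : E) / (α : E) = x)).card ≤ Fintype.card k - 1 := by
    intro x hx
    rcases Finset.eq_empty_or_nonempty (Finset.univ.filter
      (fun α : Eˣ => cj k E (α : E) / (α : E) = x)) with h0 | ⟨β, hβ⟩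
    · rw [h0]; simp
    · have hβ' : cj k E (β : E) / (β : E) = x := (Finset.mem_filter.1 hβ).2
      have hcu : Fintype.card kˣ = Fintype.card k - 1 := Fintype.card_units k
      rw [← hcu, ← Finset.card_univ]
      have : (Finset.univ.filter (fun α : Eˣ => cj k E (α : E) / (α : E) = x)) ⊆
          Finset.univ.image (fun u : kˣ => (Units.map (algebraMap k E).toMonoidHom u) * β) := by
        intro α hα
        have hα' : cj k E (α : E) / (α : E) = x := (Finset.mem_filter.1 hα).2
        have ha0 : (α : E) ≠ 0 := α.ne_zero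
        have hb0 : (β : E) ≠ 0 := β.ne_zero
        have hb1 : cj k E (β : E) ≠ 0 := fun h => hb0 (cj_eq_zero.1 h)
        have hfix : cj k E ((α : E) / (β : E)) = (α : E) / (β : E) := by
          rw [map_div₀]
          rw [← hβ'] at hα'
          field_simp at hα' ⊢
          linear_combination hα'
        obtain ⟨u, hu⟩ := exists_k hfix
        have hu0 : u ≠ 0 := by
          rintro rfl
          rw [map_zero] at hu
          exact (div_ne_zero ha0 hb0) hu.symm
        refine Finset.mem_image.2 ⟨Units.mk0 u hu0, Finset.mem_univ _, ?_⟩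
        ext
        simp only [Units.val_mul, Units.coe_map, Units.val_mk0]
        change algebraMap k E u * (β : E) = α
        rw [hu]
        field_simp
      exact (Finset.card_le_card this).trans Finset.card_image_le
  have hE1 : (E1 k E).card ≤ Fintype.card k + 1 := by
    set p := (Polynomial.X ^ (Fintype.card k + 1) - Polynomial.C 1 : Polynomial E) with hp
    have hne : p ≠ 0 := Polynomial.X_pow_sub_C_ne_zero (by omega) 1
    have hsub : E1 k E ⊆ p.roots.toFinset := by
      intro y hy
      rw [Multiset.mem_toFinset, Polynomial.mem_roots hne]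
      simp only [hp, Polynomial.IsRoot, Polynomial.eval_sub, Polynomial.eval_pow,
        Polynomial.eval_X, Polynomial.eval_C]
      have := mem_E1.1 hy
      rw [cj_apply] at this
      rw [pow_succ, mul_comm, this, sub_self]
    refine (Finset.card_le_card hsub).trans ((Multiset.toFinset_card_le _).trans
      ((Polynomial.card_roots' _).trans ?_))
    rw [hp, Polynomial.natDegree_X_pow_sub_C]
  -- total count
  have htot : ∑ x ∈ E1 k E, (Finset.univ.filter
      (fun α : Eˣ => cj k E (α : E) / (α : E) = x)).card = Fintype.card k ^ 2 - 1 := by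
    rw [← Finset.card_eq_sum_card_fiberwise (s := Finset.univ) (t := E1 k E)
      (f := fun α : Eˣ => cj k E (α : E) / (α : E)) (fun α _ => hmem α), Finset.card_univ,
      Fintype.card_units, card_E h]
  have hall : ∀ x ∈ E1 k E, (Finset.univ.filter
      (fun α : Eˣ => cj k E (α : E) / (α : E) = x)).card = Fintype.card k - 1 := by
    have hsum : ∑ x ∈ E1 k E, (Finset.univ.filter
      (fun α : Eˣ => cj k E (α : E) / (α : E) = x)).card = ∑ x ∈ E1 k E, (Fintype.card k - 1) := by
      apply le_antisymm (Finset.sum_le_sum hkey)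
      rw [htot, Finset.sum_const, smul_eq_mul]
      have : Fintype.card k ^ 2 - 1 = (Fintype.card k + 1) * (Fintype.card k - 1) := by
        obtain ⟨m, hm⟩ : ∃ m, Fintype.card k = m + 1 := ⟨Fintype.card k - 1, by omega⟩
        rw [hm]
        simp only [Nat.add_sub_cancel]
        have : (m + 1) ^ 2 = (m + 1 + 1) * m + 1 := by ring
        rw [this]; simp
      rw [this]
      exact Nat.mul_le_mul_right _ hE1
    exact (Finset.sum_eq_sum_iff_of_le hkey).1 hsum
  refine Finset.sum_congr rfl fun x hx => ?_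
  have : ∀ α ∈ Finset.univ.filter (fun α : Eˣ => cj k E (α : E) / (α : E) = x),
      G (cj k E (α : E) / (α : E)) = G x := by
    intro α hα
    rw [(Finset.mem_filter.1 hα).2]
  rw [Finset.sum_congr rfl this, Finset.sum_const, hall x hx, nsmul_eq_mul]
  push_cast [hq1.le]
  ring

/-- At most three cube roots. -/
theorem card_cube_le (a : E) : (Finset.univ.filter (fun x : E => x ^ 3 = a)).card ≤ 3 := by
  set p := (Polynomial.X ^ 3 - Polynomial.C a : Polynomial E) with hp
  have hne : p ≠ 0 := Polynomial.X_pow_sub_C_ne_zero (by omega) a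
  have hsub : Finset.univ.filter (fun x : E => x ^ 3 = a) ⊆ p.roots.toFinset := by
    intro y hy
    rw [Multiset.mem_toFinset, Polynomial.mem_roots hne]
    simp only [hp, Polynomial.IsRoot, Polynomial.eval_sub, Polynomial.eval_pow,
      Polynomial.eval_X, Polynomial.eval_C]
    rw [(Finset.mem_filter.1 hy).2, sub_self]
  refine (Finset.card_le_card hsub).trans ((Multiset.toFinset_card_le _).trans
    ((Polynomial.card_roots' _).trans ?_))
  rw [hp, Polynomial.natDegree_X_pow_sub_C]

/-- Sum over the three cosets of cubes in the norm-one group. -/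
theorem sum_cosets (c : Ctx k E) (G : E → ℤ) :
    ∑ x ∈ E1 k E, (G (x ^ 3) + G (c.ρ * x ^ 3) + G (c.ρ ^ 2 * x ^ 3)) =
      3 * ∑ x ∈ E1 k E, G x := by
  have hρ1 : c.ρ ∈ E1 k E := mem_E1.2 c.hρ
  have hm : ∀ j : Fin 3, ∀ x ∈ E1 k E, c.ρ ^ (j : ℕ) * x ^ 3 ∈ E1 k E :=
    fun j x hx => E1_mul (E1_pow hρ1 _) (E1_pow hx 3)
  have e1 : ∑ x ∈ E1 k E, (G (x ^ 3) + G (c.ρ * x ^ 3) + G (c.ρ ^ 2 * x ^ 3)) =
      ∑ j : Fin 3, ∑ x ∈ E1 k E, G (c.ρ ^ (j : ℕ) * x ^ 3) := by
    rw [Fin.sum_univ_three]
    simp only [Fin.val_zero, Fin.val_one, Fin.val_two, pow_zero, one_mul, pow_one]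
    rw [Finset.sum_add_distrib, Finset.sum_add_distrib]
  have e2 : ∀ j : Fin 3, ∑ x ∈ E1 k E, G (c.ρ ^ (j : ℕ) * x ^ 3) =
      ∑ y ∈ E1 k E, ((E1 k E).filter (fun x => c.ρ ^ (j : ℕ) * x ^ 3 = y)).card * G y := by
    intro j
    rw [← Finset.sum_fiberwise_of_maps_to (s := E1 k E) (t := E1 k E)
      (g := fun x => c.ρ ^ (j : ℕ) * x ^ 3) (hm j)]
    refine Finset.sum_congr rfl fun y _ => ?_
    rw [Finset.sum_congr rfl (g := fun _ => G y), Finset.sum_const, nsmul_eq_mul]
    intro x hx
    rw [(Finset.mem_filter.1 hx).2]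
  rw [e1, Finset.sum_congr rfl fun j _ => e2 j, Finset.sum_comm, Finset.mul_sum]
  -- the number of representations is 3
  have hρ0 := c.ρ_ne
  have hle : ∀ y ∈ E1 k E, ∑ j : Fin 3,
      ((E1 k E).filter (fun x => c.ρ ^ (j : ℕ) * x ^ 3 = y)).card ≤ 3 := by
    intro y hy
    -- at most one `j` contributes
    by_cases hj : ∃ j : Fin 3, ((E1 k E).filter (fun x => c.ρ ^ (j : ℕ) * x ^ 3 = y)).Nonempty
    · obtain ⟨j, x, hx⟩ := hj
      have hx' := (Finset.mem_filter.1 hx).2
      have hx0 : x ≠ 0 := E1_ne (Finset.mem_filter.1 hx).1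
      rw [Finset.sum_eq_single j]
      · refine le_trans (Finset.card_le_card ?_) (card_cube_le (y / c.ρ ^ (j : ℕ)))
        intro z hz
        refine Finset.mem_filter.2 ⟨Finset.mem_univ _, ?_⟩
        rw [eq_div_iff (pow_ne_zero _ hρ0), mul_comm]
        exact (Finset.mem_filter.1 hz).2
      · intro j' _ hjj
        rw [Finset.card_eq_zero, Finset.eq_empty_iff_forall_notMem]
        intro z hz
        have hz' := (Finset.mem_filter.1 hz).2
        have hz0 : z ≠ 0 := E1_ne (Finset.mem_filter.1 hz).1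
        have heq : c.ρ ^ (j' : ℕ) * z ^ 3 = c.ρ ^ (j : ℕ) * x ^ 3 := by rw [hx', hz']
        have no1 : ∀ u v : E, v ≠ 0 → c.ρ * v ^ 3 = u ^ 3 → False := by
          intro u v hv huv
          apply c.hρ3 (u / v)
          rw [div_pow, div_eq_iff (pow_ne_zero 3 hv)]
          exact huv.symm
        have no2 : ∀ u v : E, u ≠ 0 → c.ρ ^ 2 * v ^ 3 = u ^ 3 → False := by
          intro u v hu huv
          apply c.hρ3 (c.ρ * v / u)
          rw [div_pow, div_eq_iff (pow_ne_zero 3 hu)]
          linear_combination c.ρ * huv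
        fin_cases j <;> fin_cases j' <;> simp at hjj heq <;>
          first
          | exact no1 x z hz0 heq
          | exact no1 z x hx0 heq.symm
          | exact no2 x z hx0 heq
          | exact no2 z x hz0 heq.symm
          | (apply no1 x z hz0
             apply mul_left_cancel₀ hρ0
             linear_combination heq)
          | (apply no1 z x hx0
             apply mul_left_cancel₀ hρ0
             linear_combination -heq)
      · intro h
        exact absurd (Finset.mem_univ j) h
    · push Not at hj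
      rw [Finset.sum_eq_zero]
      · norm_num
      · intro j _
        rw [Finset.card_eq_zero]
        exact hj j
  have htot : ∑ y ∈ E1 k E, ∑ j : Fin 3,
      ((E1 k E).filter (fun x => c.ρ ^ (j : ℕ) * x ^ 3 = y)).card = ∑ y ∈ E1 k E, 3 := by
    rw [Finset.sum_comm, Finset.sum_congr rfl (g := fun _ => (E1 k E).card)]
    · simp [mul_comm]
    · intro j _
      exact (Finset.card_eq_sum_card_fiberwise (hm j)).symm
  have hall := (Finset.sum_eq_sum_iff_of_le hle).1 htot
  refine Finset.sum_congr rfl fun y hy => ?_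
  rw [← Finset.sum_mul]
  congr 1
  exact_mod_cast hall y hy

end Pool.Agent.Helper61.Hemi
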