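import Mathlib
import Pool.Agent.Helper61.Hemi.Unit

/-!
MP_7aba51_co, part II: the substitution `p = (x - x⁻¹)/√-3`.
-/

set_option autoImplicit false
set_option linter.unusedSectionVars false

open Classical

namespace Pool.Agent.Helper61.Hemi

open Pool.Agent.Helper93.Hemi

variable {k E : Type} [Field k] [Fintype k] [Field E] [Fintype E] [Algebra k E]

/-- `p = (x - x⁻¹)/s`. -/
noncomputable def pp (k : Type) {E : Type} [Field k] [Fintype k] [Field E] [Fintype E]
    [Algebra k E] (s x : E) : k := tr k E ((x - x⁻¹) / s) / 2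

/-- Elements with `x̄ = -x`. -/
noncomputable def SK (k E : Type) [Field k] [Fintype k] [Field E] [Fintype E] [Algebra k E] :
    Finset E := Finset.univ.filter (fun x => x ≠ 0 ∧ cj k E x = -x)

theorem mem_SK {x : E} : x ∈ SK k E ↔ x ≠ 0 ∧ cj k E x = -x := by simp [SK]

section

variable (c : Ctx k E) {s : E} (hs : s ^ 2 = -3) (hs' : cj k E s = -s)

include c hs hs'

theorem s_ne : s ≠ 0 := by
  rintro rfl
  apply c.three_ne_E
  linear_combination hs

theorem pp_spec {x : E} (hx : x ∈ E1 k E ∨ x ∈ SK k E) :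
    x - x⁻¹ = s * algebraMap k E (pp k s x) := by
  have hs0 := s_ne c hs hs'
  have hx0 : x ≠ 0 := by
    rcases hx with h | h
    · exact E1_ne h
    · exact (mem_SK.1 h).1
  have h1 : cj k E (x - x⁻¹) = -(x - x⁻¹) := by
    rcases hx with h | h
    · rw [map_sub, map_inv₀, E1_cj h, inv_inv]
      ring
    · rw [map_sub, map_inv₀, (mem_SK.1 h).2, inv_neg]
      ring
  unfold pp
  rw [map_div₀, tr_formula c.finE, map_div₀, h1, hs', neg_div_neg_eq, map_ofNat]
  have := c.two_ne_E
  field_simp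
  ring

theorem pp_eq_of {x : E} (hx0 : x ≠ 0) {p : k} (h : x - x⁻¹ = s * algebraMap k E p) :
    pp k s x = p := by
  have hs0 := s_ne c hs hs'
  unfold pp
  rw [h, mul_div_cancel_left₀ _ hs0]
  apply algebraMap_inj (E := E)
  rw [map_div₀, tr_formula c.finE, cj_algebraMap, map_ofNat]
  have := c.two_ne_E
  field_simp
  ring

theorem mem_of_eq {x : E} (hx0 : x ≠ 0) {p : k} (h : x - x⁻¹ = s * algebraMap k E p) :
    x ∈ E1 k E ∨ x ∈ SK k E := by
  have h1 := congrArg (cj k E) h
  rw [map_sub, map_inv₀, map_mul, hs', cj_algebraMap] at h1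
  have hc0 : cj k E x ≠ 0 := fun h => hx0 (cj_eq_zero.1 h)
  have h2 : (x * cj k E x - 1) * (cj k E x + x) = 0 := by
    have e : x - x⁻¹ + (cj k E x - (cj k E x)⁻¹) = 0 := by rw [h, h1]; ring
    field_simp at e
    linear_combination e
  rcases mul_eq_zero.1 h2 with h3 | h3
  · left; rw [mem_E1]; linear_combination h3
  · right; rw [mem_SK]; exact ⟨hx0, by linear_combination h3⟩

theorem disj : Disjoint (E1 k E) (SK k E) := by
  rw [Finset.disjoint_left]
  intro x hx hx'
  have h1 := mem_E1.1 hx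
  obtain ⟨hx0, h2⟩ := mem_SK.1 hx'
  rw [h2] at h1
  -- x^2 = -1, so x = ± i ∈ k
  have hi : (algebraMap k E c.i) ^ 2 = -1 := by rw [← map_pow, c.hi, map_neg, map_one]
  have h3 : (x - algebraMap k E c.i) * (x + algebraMap k E c.i) = 0 := by
    linear_combination -h1 - hi
  have h4 : cj k E x = x := by
    rcases mul_eq_zero.1 h3 with h | h
    · have : x = algebraMap k E c.i := by linear_combination h
      rw [this, cj_algebraMap]
    · have : x = -algebraMap k E c.i := by linear_combination h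
      rw [this, map_neg, cj_algebraMap]
  rw [h2] at h4
  have : 2 * x = 0 := by linear_combination -h4
  rcases mul_eq_zero.1 this with h | h
  · exact c.two_ne_E h
  · exact hx0 h

/-- Each `p` has exactly two preimages. -/
theorem card_two (p : k) : ((E1 k E ∪ SK k E).filter (fun x => pp k s x = p)).card = 2 := by
  have hs0 := s_ne c hs hs'
  have h2 := c.two_ne_E
  obtain ⟨r, hr⟩ := c.exists_sqrt (4 - 3 * p ^ 2)
  rw [map_sub, map_mul, map_pow, map_ofNat, map_ofNat] at hr
  set P := algebraMap k E p with hP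
  have hr0 : r ≠ 0 := by
    rintro rfl
    -- 3 p^2 = 4, then (s p)^2 = -4 = (2 i)^2, so s ∈ k
    have hp0 : P ≠ 0 := by
      intro h
      rw [h] at hr
      have : (2 : E) ^ 2 = 0 := by linear_combination -hr
      exact h2 (pow_eq_zero_iff (two_ne_zero) |>.1 this)
    have hi : (algebraMap k E c.i) ^ 2 = -1 := by rw [← map_pow, c.hi, map_neg, map_one]
    have h3 : (s * P - 2 * algebraMap k E c.i) * (s * P + 2 * algebraMap k E c.i) = 0 := by
      linear_combination P ^ 2 * hs - 4 * hi - hr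
    have h4 : cj k E (s * P) = s * P := by
      rcases mul_eq_zero.1 h3 with h | h
      · have : s * P = 2 * algebraMap k E c.i := by linear_combination h
        rw [this, map_mul, cj_algebraMap, map_ofNat]
      · have : s * P = -(2 * algebraMap k E c.i) := by linear_combination h
        rw [this, map_neg, map_mul, cj_algebraMap, map_ofNat]
    rw [map_mul, hs', hP, cj_algebraMap, ← hP] at h4
    have : 2 * (s * P) = 0 := by linear_combination -h4
    rcases mul_eq_zero.1 this with h | h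
    · exact h2 h
    · exact (mul_ne_zero hs0 hp0) h
  have hne : (s * P + r) / 2 ≠ (s * P - r) / 2 := by
    intro h
    apply hr0
    field_simp at h
    have : 2 * r = 0 := by linear_combination h
    exact (mul_eq_zero.1 this).resolve_left h2
  have heq : (E1 k E ∪ SK k E).filter (fun x => pp k s x = p) =
      {(s * P + r) / 2, (s * P - r) / 2} := by
    ext x
    simp only [Finset.mem_filter, Finset.mem_union, Finset.mem_insert, Finset.mem_singleton]
    constructor
    · rintro ⟨hx, hxp⟩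
      have h1 := pp_spec c hs hs' hx
      rw [hxp, ← hP] at h1
      have hx0 : x ≠ 0 := by
        rcases hx with h | h
        · exact E1_ne h
        · exact (mem_SK.1 h).1
      have h3 : (x - (s * P + r) / 2) * (x - (s * P - r) / 2) = 0 := by
        field_simp at h1 ⊢
        linear_combination 4 * h1 - hr + P ^ 2 * hs
      rcases mul_eq_zero.1 h3 with h | h
      · left; linear_combination h
      · right; linear_combination h
    · intro hx
      have h3 : (x - (s * P + r) / 2) * (x - (s * P - r) / 2) = 0 := by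
        rcases hx with h | h
        · rw [h]; ring
        · rw [h]; ring
      have h4 : x ^ 2 - s * P * x - 1 = 0 := by
        field_simp at h3
        have : 4 * (x ^ 2 - s * P * x - 1) = 0 := by
          linear_combination h3 + hr - P ^ 2 * hs
        have h44 : (4 : E) ≠ 0 := by
          have : (4 : E) = 2 ^ 2 := by norm_num
          rw [this]; exact pow_ne_zero 2 h2
        exact (mul_eq_zero.1 this).resolve_left h44
      have hx0 : x ≠ 0 := by
        rintro rfl
        norm_num at h4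
      have h1 : x - x⁻¹ = s * algebraMap k E p := by
        rw [← hP]
        field_simp
        linear_combination h4
      exact ⟨mem_of_eq c hs hs' hx0 h1, pp_eq_of c hs hs' hx0 h1⟩
  rw [heq, Finset.card_pair hne]

theorem sum_pair (F : k → ℤ) : ∑ x ∈ E1 k E, F (pp k s x) + ∑ x ∈ SK k E, F (pp k s x) =
    2 * ∑ p : k, F p := by
  rw [← Finset.sum_union (disj c hs hs'),
    ← Finset.sum_fiberwise_of_maps_to (s := E1 k E ∪ SK k E) (t := Finset.univ)
    (g := fun x => pp k s x) (fun _ _ => Finset.mem_univ _), Finset.mul_sum]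
  refine Finset.sum_congr rfl fun p _ => ?_
  rw [Finset.sum_congr rfl (g := fun _ => F p), Finset.sum_const, card_two c hs hs', nsmul_eq_mul]
  · norm_num
  · intro x hx
    rw [(Finset.mem_filter.1 hx).2]

theorem pp_cube {x : E} (hx : x ∈ E1 k E ∨ x ∈ SK k E) :
    pp k s (x ^ 3) = 3 * (pp k s x - pp k s x ^ 3) := by
  have hx0 : x ≠ 0 := by
    rcases hx with h | h
    · exact E1_ne h
    · exact (mem_SK.1 h).1
  have h1 := pp_spec c hs hs' hx
  apply pp_eq_of c hs hs' (pow_ne_zero 3 hx0)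
  simp only [map_mul, map_sub, map_pow, map_ofNat]
  set P := algebraMap k E (pp k s x)
  have e : x ^ 3 - (x ^ 3)⁻¹ = (x - x⁻¹) ^ 3 + 3 * (x - x⁻¹) := by
    field_simp
    ring
  rw [e, h1]
  linear_combination (s * P ^ 3) * hs

theorem sum_SK_cube (H : E → ℤ) : ∑ x ∈ SK k E, H (x ^ 3) = ∑ x ∈ SK k E, H x := by
  have hmaps : ∀ x ∈ SK k E, x ^ 3 ∈ SK k E := by
    intro x hx
    obtain ⟨h0, h1⟩ := mem_SK.1 hx
    rw [mem_SK, map_pow, h1]
    exact ⟨pow_ne_zero 3 h0, by ring⟩
  have hinj : ∀ x ∈ SK k E, ∀ y ∈ SK k E, x ^ 3 = y ^ 3 → x = y := by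
    intro x hx y hy hxy
    obtain ⟨hx0, hx1⟩ := mem_SK.1 hx
    obtain ⟨hy0, hy1⟩ := mem_SK.1 hy
    have h1 : cj k E (x / y) = x / y := by rw [map_div₀, hx1, hy1, neg_div_neg_eq]
    obtain ⟨u, hu⟩ := exists_k h1
    have h3 : u ^ 3 = 1 ^ 3 := by
      apply algebraMap_inj (E := E)
      rw [map_pow, hu, div_pow, hxy, div_self (pow_ne_zero 3 hy0), one_pow, map_one]
    have h4 := c.cube_bij.1 h3
    rw [h4, map_one] at hu
    field_simp at hu
    exact hu.symm
  refine Finset.sum_bij (fun x _ => x ^ 3) hmaps (fun x hx y hy h => hinj x hx y hy h) ?_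
    (fun _ _ => rfl)
  intro y hy
  have hs2 := Finset.surj_on_of_inj_on_of_card_le (s := SK k E) (t := SK k E)
    (fun x _ => x ^ 3) hmaps (fun x y hx hy h => hinj x hx y hy h) le_rfl y hy
  obtain ⟨x, hx, hxy⟩ := hs2
  exact ⟨x, hx, hxy.symm⟩

/-- The difference between cubes and all elements, in terms of sums over `k`. -/
theorem sum_E1_cube (F : k → ℤ) :
    ∑ x ∈ E1 k E, F (pp k s (x ^ 3)) - ∑ x ∈ E1 k E, F (pp k s x) =
      2 * (∑ p : k, F (3 * (p - p ^ 3)) - ∑ p : k, F p) := by
  have h1 := sum_pair c hs hs' F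
  have h2 := sum_pair c hs hs' (fun p => F (3 * (p - p ^ 3)))
  have h3 := sum_SK_cube c hs hs' (fun x => F (pp k s x))
  have e1 : ∑ x ∈ E1 k E, F (3 * (pp k s x - pp k s x ^ 3)) =
      ∑ x ∈ E1 k E, F (pp k s (x ^ 3)) :=
    Finset.sum_congr rfl fun x hx => by rw [pp_cube c hs hs' (Or.inl hx)]
  have e2 : ∑ x ∈ SK k E, F (3 * (pp k s x - pp k s x ^ 3)) =
      ∑ x ∈ SK k E, F (pp k s (x ^ 3)) :=
    Finset.sum_congr rfl fun x hx => by rw [pp_cube c hs hs' (Or.inr hx)]
  rw [e1, e2] at h2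
  linarith

/-- The main identity of the norm-one bookkeeping. -/
theorem unit_main {κ : E} (hκ : cj k E κ = -κ) {lam : k} (hl : algebraMap k E lam = κ * s)
    (F : k → ℤ) :
    ∑ α : Eˣ, (F (tr k E (κ * (cj k E (α : E) / (α : E)) ^ 3)) -
      F (tr k E (κ * (c.ρ ^ 2 * (cj k E (α : E) / (α : E)) ^ 3)))) =
      3 * ((Fintype.card k : ℤ) - 1) *
        (∑ p : k, F (lam * (3 * (p - p ^ 3))) - ∑ p : k, F (lam * p)) := by
  have hρ1 : c.ρ ∈ E1 k E := mem_E1.2 c.hρ
  set G : E → ℤ := fun x => F (tr k E (κ * x)) with hG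
  have hGE : ∀ x ∈ E1 k E, G x = F (lam * pp k s x) := by
    intro x hx
    simp only [hG]
    congr 1
    apply algebraMap_inj (E := E)
    rw [tr_formula c.finE, map_mul, map_mul, hκ, hl, E1_cj hx]
    have := pp_spec c hs hs' (Or.inl hx)
    linear_combination κ * this
  have hGs : ∀ x ∈ E1 k E, G (-x⁻¹) = G x := by
    intro x hx
    simp only [hG]
    congr 1
    apply algebraMap_inj (E := E)
    rw [tr_formula c.finE, tr_formula c.finE, map_mul, map_mul, hκ, map_neg, map_inv₀, E1_cj hx,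
      inv_inv]
    ring
  have hA : ∑ α : Eˣ, (G ((cj k E (α : E) / (α : E)) ^ 3) -
      G (c.ρ ^ 2 * (cj k E (α : E) / (α : E)) ^ 3)) =
      ((Fintype.card k : ℤ) - 1) * ∑ x ∈ E1 k E, (G (x ^ 3) - G (c.ρ ^ 2 * x ^ 3)) :=
    sum_ratio c.finE (fun x => G (x ^ 3) - G (c.ρ ^ 2 * x ^ 3))
  have hB := sum_cosets c G
  have hC : ∑ x ∈ E1 k E, G (c.ρ ^ 2 * x ^ 3) = ∑ x ∈ E1 k E, G (c.ρ * x ^ 3) := by
    refine Finset.sum_nbij' (fun x => -(c.ρ * x)⁻¹) (fun x => -(c.ρ * x)⁻¹) ?_ ?_ ?_ ?_ ?_
    · intro x hx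
      exact E1_neg (E1_inv (E1_mul hρ1 hx))
    · intro x hx
      exact E1_neg (E1_inv (E1_mul hρ1 hx))
    · intro x hx
      have h0 := E1_ne hx
      have h1 := c.ρ_ne
      field_simp
      try ring
    · intro x hx
      have h0 := E1_ne hx
      have h1 := c.ρ_ne
      field_simp
      try ring
    · intro x hx
      rw [← hGs _ (E1_mul (E1_pow hρ1 2) (E1_pow hx 3))]
      congr 1
      have h0 := E1_ne hx
      have h1 := c.ρ_ne
      field_simp
      try ring
  rw [Finset.sum_add_distrib, Finset.sum_add_distrib, hC] at hB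
  rw [hA, Finset.sum_sub_distrib, hC]
  have hD := sum_E1_cube c hs hs' (fun p => F (lam * p))
  have e1 : ∑ x ∈ E1 k E, F (lam * pp k s (x ^ 3)) = ∑ x ∈ E1 k E, G (x ^ 3) :=
    Finset.sum_congr rfl fun x hx => (hGE _ (E1_pow hx 3)).symm
  have e2 : ∑ x ∈ E1 k E, F (lam * pp k s x) = ∑ x ∈ E1 k E, G x :=
    Finset.sum_congr rfl fun x hx => (hGE _ hx).symm
  rw [e1, e2] at hD
  have h5 : 2 * (∑ x ∈ E1 k E, G (x ^ 3) - ∑ x ∈ E1 k E, G (c.ρ * x ^ 3)) =
      2 * (3 * (∑ p : k, F (lam * (3 * (p - p ^ 3))) - ∑ p : k, F (lam * p))) := by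
    linarith
  have h6 := mul_left_cancel₀ (two_ne_zero) h5
  rw [h6]
  ring

end

end Pool.Agent.Helper61.Hemi
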