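import Mathlib
import Pool.Agent.Helper61.Hemi.Pair

/-!
MP_7aba51_co, part II: `S` in terms of the sums `T`.
-/

set_option autoImplicit false
set_option linter.unusedSectionVars false

open Classical

namespace Pool.Agent.Helper61.Hemi

open Pool.Agent.Helper93.Hemi

variable {k E : Type} [Field k] [Fintype k] [Field E] [Fintype E] [Algebra k E]

/-- The elliptic sum. -/
noncomputable def T (B N w : k) : ℤ := ∑ h : k, quadraticChar k (4 * h ^ 3 + 12 * B * h + 2 * N - w)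

theorem sum_scale (a : k) (ha : a ≠ 0) (f g : k → k)
    (hfg : ∀ h, f (-a * h) = a ^ 3 * g h) :
    ∑ h : k, quadraticChar k (f h) = quadraticChar k a * ∑ h : k, quadraticChar k (g h) := by
  rw [← Equiv.sum_comp (Equiv.mulLeft₀ (-a) (neg_ne_zero.2 ha)), Finset.mul_sum]
  refine Finset.sum_congr rfl fun h _ => ?_
  rw [Equiv.mulLeft₀_apply, hfg, map_mul, map_pow]
  congr 1
  have : quadraticChar k a ^ 2 = 1 := quadraticChar_sq_one ha
  rw [pow_succ, this, one_mul]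

variable (c : Ctx k E)

/-- The element `κ`. -/
noncomputable def kap (Y μ : E) : E :=
  μ ^ 2 + 4 * algebraMap k E c.i * cj k E c.ρ * cj k E Y ^ 3

theorem i_sq : (algebraMap k E c.i) ^ 2 = -1 := by rw [← map_pow, c.hi, map_neg, map_one]

theorem cj_kap {Y μ : E} (h : 4 * tr k E (c.ρ * Y ^ 3) = c.i * tr k E (μ ^ 2)) :
    cj k E (kap c Y μ) = - kap c Y μ := by
  have h1 := congrArg (algebraMap k E) h
  rw [(algebraMap k E).map_mul, (algebraMap k E).map_mul, tr_formula c.finE,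
    tr_formula c.finE, map_ofNat] at h1
  simp only [map_mul, map_pow] at h1
  unfold kap
  simp only [map_add, map_mul, map_pow, cj_cj c.finE, cj_algebraMap, map_ofNat]
  have hi := i_sq c
  linear_combination (algebraMap k E c.i) * h1 + (μ ^ 2 + cj k E μ ^ 2) * hi

theorem T0_eq {Y μ : E} (hκ : cj k E (kap c Y μ) = - kap c Y μ) (α : Eˣ) :
    ∑ h : k, quadraticChar k ((- tr k E ((α : E) ^ 3 * μ)) ^ 2 - 4 * (h ^ 3 - 3 * h *
      nm k E (algebraMap k E c.i * (α : E) ^ 2 * cj k E Y) +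
      tr k E (c.ρ * cj k E (algebraMap k E c.i * (α : E) ^ 2 * cj k E Y) ^ 3))) =
    quadraticChar k (nm k E (α : E)) * T (nm k E Y) (nm k E μ)
      (tr k E (kap c Y μ * (cj k E (α : E) / (α : E)) ^ 3)) := by
  have h0 : (α : E) ≠ 0 := α.ne_zero
  have h1 : cj k E (α : E) ≠ 0 := fun h => h0 (cj_eq_zero.1 h)
  have ha : nm k E (α : E) ≠ 0 := fun h => h0 ((nm_eq_zero c.finE).1 h)
  unfold T
  apply sum_scale _ ha
  intro h
  apply algebraMap_inj (E := E)
  have hi := i_sq c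
  simp only [map_sub, map_add, map_mul, map_pow, map_neg, map_ofNat, tr_formula c.finE,
    nm_formula c.finE, cj_cj c.finE, cj_algebraMap, hκ, map_div₀]
  have hκ' := hκ
  unfold kap at hκ'
  simp only [map_add, map_mul, map_pow, cj_cj c.finE, cj_algebraMap, map_ofNat] at hκ'
  set A := (α : E)
  set A' := cj k E A
  set y' := cj k E Y
  set m' := cj k E μ
  set r' := cj k E c.ρ
  set H := algebraMap k E h
  set I := algebraMap k E c.i
  have e1 : (A * A') ^ 3 * (kap c Y μ * (A' / A) ^ 3) = kap c Y μ * A' ^ 6 := by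
    field_simp
  have e2 : (A * A') ^ 3 * (-kap c Y μ * (A / A') ^ 3) = -kap c Y μ * A ^ 6 := by
    field_simp
  have e3 : kap c Y μ = μ ^ 2 + 4 * I * r' * y' ^ 3 := rfl
  rw [e3] at e1 e2 ⊢
  linear_combination e1 + e2 + A' ^ 6 * hκ' +
    (- 12 * H * A ^ 3 * A' ^ 3 * Y * y' - 4 * I * (c.ρ * A' ^ 6 * Y ^ 3 + r' * A ^ 6 * y' ^ 3)) * hi

theorem T1_eq {Y μ : E} (hκ : cj k E (kap c Y μ) = - kap c Y μ) (α : Eˣ) :
    ∑ h : k, quadraticChar k ((- tr k E ((α : E) ^ 3 * μ * cj k E c.ρ)) ^ 2 - 4 * (h ^ 3 - 3 * h *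
      nm k E (algebraMap k E c.i * (α : E) ^ 2 * cj k E Y * cj k E c.ρ) +
      tr k E ((algebraMap k E c.i * (α : E) ^ 2 * cj k E Y * cj k E c.ρ) ^ 3))) =
    quadraticChar k (nm k E (α : E)) * T (nm k E Y) (nm k E μ)
      (tr k E (kap c Y μ * (c.ρ ^ 2 * (cj k E (α : E) / (α : E)) ^ 3))) := by
  have h0 : (α : E) ≠ 0 := α.ne_zero
  have h1 : cj k E (α : E) ≠ 0 := fun h => h0 (cj_eq_zero.1 h)
  have ha : nm k E (α : E) ≠ 0 := fun h => h0 ((nm_eq_zero c.finE).1 h)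
  unfold T
  apply sum_scale _ ha
  intro h
  apply algebraMap_inj (E := E)
  have hi := i_sq c
  simp only [map_sub, map_add, map_mul, map_pow, map_neg, map_ofNat, tr_formula c.finE,
    nm_formula c.finE, cj_cj c.finE, cj_algebraMap, hκ, map_div₀]
  have hκ' := hκ
  unfold kap at hκ'
  simp only [map_add, map_mul, map_pow, cj_cj c.finE, cj_algebraMap, map_ofNat] at hκ'
  have hρ := c.hρ
  set A := (α : E)
  set A' := cj k E A
  set y' := cj k E Y
  set m' := cj k E μ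
  set r' := cj k E c.ρ
  set H := algebraMap k E h
  set I := algebraMap k E c.i
  have e1 : (A * A') ^ 3 * (kap c Y μ * (c.ρ ^ 2 * (A' / A) ^ 3)) =
      kap c Y μ * c.ρ ^ 2 * A' ^ 6 := by
    field_simp
  have e2 : (A * A') ^ 3 * (-kap c Y μ * (r' ^ 2 * (A / A') ^ 3)) =
      -kap c Y μ * r' ^ 2 * A ^ 6 := by
    field_simp
  have e3 : kap c Y μ = μ ^ 2 + 4 * I * r' * y' ^ 3 := rfl
  rw [e3] at e1 e2 ⊢
  linear_combination e1 + e2 + A' ^ 6 * c.ρ ^ 2 * hκ' +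
    (- 12 * H * A ^ 3 * A' ^ 3 * Y * y' - 4 * I * (c.ρ ^ 3 * A' ^ 6 * Y ^ 3 +
      r' ^ 3 * A ^ 6 * y' ^ 3)) * hi +
    (12 * H * I ^ 2 * A ^ 3 * A' ^ 3 * Y * y' * (-1) + 2 * A ^ 3 * A' ^ 3 * μ * m') * hρ

end Pool.Agent.Helper61.Hemi
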