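import Mathlib
import Pool.Agent.Helper52.Hemi.Base
import Pool.Agent.Helper61.Hemi.Eval

/-!
MP_7aba51_co, part II: the quartic has exactly one root in `k`.
Here `k ⊂ F ⊂ K`, `|k| = q`, `|F| = q^2`, `|K| = q^6` (`F`, `K` of helper52).
-/

set_option autoImplicit false
set_option linter.unusedSectionVars false

open Classical

namespace Pool.Agent.Helper61.Hemi

open Pool.Agent.Helper52.Hemi

section tower

variable {k F K : Type} [Field k] [Fintype k] [Field F] [Fintype F] [Field K] [Fintype K]
  [Algebra k F] [Algebra F K] [Algebra k K] [IsScalarTower k F K]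

theorem card_F' (hF : Module.finrank k F = 2) : Fintype.card F = Fintype.card k ^ 2 := by
  rw [Module.card_eq_pow_finrank (K := k) (V := F), hF]

theorem card_K' (hF : Module.finrank k F = 2) (hK : Module.finrank F K = 3) :
    Fintype.card K = Fintype.card k ^ 6 := by
  rw [Module.card_eq_pow_finrank (K := F) (V := K), hK, card_F' hF]
  ring

theorem cj_cj' (hF : Module.finrank k F = 2) (x : F) : cj k F (cj k F x) = x := by
  rw [cj_apply, cj_apply, ← pow_mul, ← sq, ← card_F' hF, FiniteField.pow_card]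

theorem fr_six' (hF : Module.finrank k F = 2) (hK : Module.finrank F K = 3) (x : K) :
    fr k K (fr k K (fr k K (fr k K (fr k K (fr k K x))))) = x := by
  change ((((((x ^ Fintype.card k) ^ Fintype.card k) ^ Fintype.card k) ^ Fintype.card k) ^
    Fintype.card k) ^ Fintype.card k) = x
  rw [← pow_mul, ← pow_mul, ← pow_mul, ← pow_mul, ← pow_mul]
  have h6 : ∀ m n : ℕ, m = n → x ^ m = x ^ n := fun m n h => by rw [h]
  rw [h6 _ (Fintype.card K) (by rw [card_K' hF hK]; ring), FiniteField.pow_card]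

theorem fixed_k {x : K} (hx : fr k K x = x) : ∃ u : k, algebraMap k K u = x := by
  have hq1 : 1 < Fintype.card k := Fintype.one_lt_card
  have hne := FiniteField.X_pow_card_sub_X_ne_zero K hq1
  have hdeg := FiniteField.X_pow_card_sub_X_natDegree_eq K hq1
  set p := (Polynomial.X ^ Fintype.card k - Polynomial.X : Polynomial K) with hp
  have hsub : Finset.univ.image (algebraMap k K) ⊆ p.roots.toFinset := by
    intro y hy
    obtain ⟨u, _, rfl⟩ := Finset.mem_image.1 hy
    rw [Multiset.mem_toFinset, Polynomial.mem_roots hne]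
    simp only [hp, Polynomial.IsRoot, Polynomial.eval_sub, Polynomial.eval_pow,
      Polynomial.eval_X]
    rw [← map_pow, FiniteField.pow_card, sub_self]
  have hcard : p.roots.toFinset.card ≤ (Finset.univ.image (algebraMap k K)).card := by
    rw [Finset.card_image_of_injective _ (algebraMap k K).injective, Finset.card_univ, ← hdeg]
    exact (Multiset.toFinset_card_le _).trans (Polynomial.card_roots' _)
  have heq := Finset.eq_of_subset_of_card_le hsub hcard
  have hxr : x ∈ p.roots.toFinset := by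
    rw [Multiset.mem_toFinset, Polynomial.mem_roots hne]
    simp only [hp, Polynomial.IsRoot, Polynomial.eval_sub, Polynomial.eval_pow,
      Polynomial.eval_X]
    rw [← fr_apply, hx, sub_self]
  rw [← heq] at hxr
  obtain ⟨u, _, hu⟩ := Finset.mem_image.1 hxr
  exact ⟨u, hu⟩

/-- An element of `K` whose norm to `F` is a nonzero square of `F` is a square. -/
theorem isSquare_of_norm (hF : Module.finrank k F = 2) (hK : Module.finrank F K = 3)
    (h2 : (2 : k) ≠ 0) (w : K) (m : F) (hm : m ≠ 0)
    (hw : w * fr k K (fr k K w) * fr k K (fr k K (fr k K (fr k K w))) = algebraMap F K (m ^ 2)) :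
    IsSquare w := by
  have hw0 : w ≠ 0 := by
    rintro rfl
    rw [zero_mul, zero_mul, eq_comm, map_eq_zero] at hw
    exact hm (pow_eq_zero_iff (two_ne_zero) |>.1 hw)
  have hchar : ringChar K ≠ 2 := by
    apply ringChar_ne_two
    intro h
    apply h2
    have : algebraMap k K 2 = 0 := by rw [map_ofNat]; exact h
    exact (map_eq_zero _).1 this
  have hodd : Fintype.card k % 2 = 1 := by
    rcases Nat.mod_two_eq_zero_or_one (Fintype.card k) with h | h
    · exfalso
      apply ringChar_ne_two h2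
      exact (FiniteField.even_card_iff_char_two (F := k)).2 h
    · exact h
  rw [FiniteField.isSquare_iff hchar hw0]
  set q := Fintype.card k with hq
  obtain ⟨t, ht⟩ : ∃ t, q = 2 * t + 1 := ⟨q / 2, by omega⟩
  have e1 : Fintype.card K / 2 = (1 + q ^ 2 + q ^ 4) * (Fintype.card F / 2) := by
    rw [card_K' hF hK, card_F' hF, ← hq, ht]
    have a1 : (2 * t + 1) ^ 2 / 2 = 2 * t ^ 2 + 2 * t := by
      have : (2 * t + 1) ^ 2 = 2 * (2 * t ^ 2 + 2 * t) + 1 := by ring
      omega
    rw [a1]
    have a2 : (2 * t + 1) ^ 6 =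
        2 * ((1 + (2 * t + 1) ^ 2 + (2 * t + 1) ^ 4) * (2 * t ^ 2 + 2 * t)) + 1 := by ring
    omega
  rw [e1, pow_mul]
  have e2 : w ^ (1 + q ^ 2 + q ^ 4) = algebraMap F K (m ^ 2) := by
    rw [← hw, pow_add, pow_add, pow_one]
    simp only [fr_apply, ← pow_mul]
    congr 2
    · congr 1
      rw [← hq]; ring
    · rw [← hq]; ring
  rw [e2, ← map_pow, ← pow_mul]
  have e3 : 2 * (Fintype.card F / 2) = Fintype.card F - 1 := by
    have hFodd : Fintype.card F % 2 = 1 := by
      rw [card_F' hF, Nat.pow_mod, hodd]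
    omega
  rw [e3, FiniteField.pow_card_sub_one_eq_one m hm, map_one]

/-- EV2: the quartic has exactly one root in `k`. -/
theorem ev2 (hF : Module.finrank k F = 2) (hK : Module.finrank F K = 3)
    (h2 : (2 : k) ≠ 0) (h3 : (3 : k) ≠ 0) (ω : F) (hω : ω ^ 2 + ω + 1 = 0)
    (hω' : cj k F ω = ω ^ 2) (s3 : F) (hs3 : s3 ^ 2 = 3) (hs3' : cj k F s3 = -s3)
    (z : k) (hz : z ≠ 0) (δ : K) (hδ0 : δ ≠ 0)
    (hδ : fr k K (fr k K δ) = algebraMap F K ω * δ) (μ : F)
    (hμ : algebraMap F K μ ^ 2 - δ ^ 3 = algebraMap F K (algebraMap k F z ^ 3 / (3 * s3)))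
    (n N : k) (hn : algebraMap k K n = δ * tau k K δ) (hN : algebraMap k F N = μ * cj k F μ) :
    ∃! M : k, quartic (3 * n) (z ^ 2) (2 * N) M = 0 := by
  have h2K : (2 : K) ≠ 0 := by
    intro h
    apply h2
    have : algebraMap k K 2 = 0 := by rw [map_ofNat]; exact h
    exact (map_eq_zero _).1 this
  have h3K : (3 : K) ≠ 0 := by
    intro h
    apply h3
    have : algebraMap k K 3 = 0 := by rw [map_ofNat]; exact h
    exact (map_eq_zero _).1 this
  have h3F : (3 : F) ≠ 0 := by
    intro h
    apply h3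
    have : algebraMap k F 3 = 0 := by rw [map_ofNat]; exact h
    exact (map_eq_zero _).1 this
  have hs30 : s3 ≠ 0 := by
    rintro rfl
    apply h3F
    rw [← hs3]; ring
  -- names in `K`
  set σ := fr k K with hσ
  set W := algebraMap F K ω with hW
  set S := algebraMap F K s3 with hS
  set Z := algebraMap k K z with hZ
  set m := algebraMap F K μ with hm
  have hS2 : S ^ 2 = 3 := by rw [hS, ← map_pow, hs3, map_ofNat]
  have hS0 : S ≠ 0 := by
    intro h
    apply h3K
    rw [← hS2, h]; ring
  have hW2 : W ^ 2 + W + 1 = 0 := by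
    rw [hW, ← map_pow, ← map_add, ← map_one (algebraMap F K), ← map_add, hω, map_zero]
  have hσW : σ W = W ^ 2 := by rw [hW, hσ, fr_F, hω', map_pow]
  have hσS : σ S = -S := by rw [hS, hσ, fr_F, hs3', map_neg]
  have hσZ : σ Z = Z := by rw [hZ, hσ, fr_algebraMap]
  have hσδ : σ (σ δ) = W * δ := hδ
  have hW3 : W ^ 3 = 1 := by linear_combination (W - 1) * hW2
  have hZ0 : Z ≠ 0 := by
    rw [hZ]
    exact (map_ne_zero _).2 hz
  have hμ' : m ^ 2 - δ ^ 3 = Z ^ 3 / (3 * S) := by
    rw [hm, hμ, map_div₀, map_mul, map_pow, ← IsScalarTower.algebraMap_apply, map_ofNat]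
  -- W ≠ 1
  have hW1 : W ≠ 1 := by
    intro h
    apply h3K
    rw [h] at hW2
    linear_combination hW2
  -- μ ≠ 0
  have hμ0 : μ ≠ 0 := by
    intro h0
    have hm0 : m = 0 := by rw [hm, h0, map_zero]
    rw [hm0] at hμ'
    -- then δ^3 = -(Z/S)^3
    have e1 : δ ^ 3 = (-(Z / S)) ^ 3 := by
      have : (Z / S) ^ 3 = Z ^ 3 / (3 * S) := by
        rw [div_pow]
        congr 1
        rw [← hS2]; ring
      rw [neg_pow, this, ← hμ']
      ring
    have e2 : (δ - -(Z / S)) * (δ - W * -(Z / S)) * (δ - W ^ 2 * -(Z / S)) = 0 := by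
      have : (δ - -(Z / S)) * (δ - W * -(Z / S)) * (δ - W ^ 2 * -(Z / S)) =
          δ ^ 3 - (-(Z / S)) ^ 3 * W ^ 3 - (W ^ 2 + W + 1) * (δ ^ 2 * -(Z / S)) +
            (W ^ 2 + W + 1) * W * (δ * (-(Z / S)) ^ 2) := by ring
      rw [this, hW2, hW3, e1]
      ring
    have e3 : ∃ c : F, δ = algebraMap F K c := by
      rcases mul_eq_zero.1 e2 with h | h
      · rcases mul_eq_zero.1 h with h | h
        · refine ⟨-(algebraMap k F z / s3), ?_⟩
          rw [sub_eq_zero.1 h, map_neg, map_div₀, ← IsScalarTower.algebraMap_apply]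
        · refine ⟨ω * -(algebraMap k F z / s3), ?_⟩
          rw [sub_eq_zero.1 h, map_mul, map_neg, map_div₀, ← IsScalarTower.algebraMap_apply]
      · refine ⟨ω ^ 2 * -(algebraMap k F z / s3), ?_⟩
        rw [sub_eq_zero.1 h, map_mul, map_pow, map_neg, map_div₀,
          ← IsScalarTower.algebraMap_apply]
    obtain ⟨c, hc⟩ := e3
    have e4 : σ (σ δ) = δ := by
      rw [hc, hσ, fr_F, fr_F, cj_cj' hF]
    rw [hσδ] at e4
    apply hW1
    have : (W - 1) * δ = 0 := by linear_combination e4
    rcases mul_eq_zero.1 this with h | h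
    · linear_combination h
    · exact absurd h hδ0
  have hm0 : m ≠ 0 := by rw [hm]; exact (map_ne_zero _).2 hμ0
  -- the square root
  set w := Z / S + δ with hw
  have hσw : σ w = -(Z / S) + σ δ := by
    rw [hw, map_add, map_div₀, hσZ, hσS, div_neg]
  have hσσw : σ (σ w) = Z / S + W * δ := by
    rw [hσw, map_add, map_neg, map_div₀, hσZ, hσS, hσδ, div_neg, neg_neg]
  have hσσδ2 : σ (σ (W * δ)) = W ^ 2 * δ := by
    rw [map_mul, hσW, map_mul, map_pow, hσW, hσδ]
    linear_combination (W ^ 2 * δ) * hW3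
  have hσ4w : σ (σ (σ (σ w))) = Z / S + W ^ 2 * δ := by
    rw [hσσw, map_add, map_add, map_div₀, map_div₀, hσZ, hσS, map_neg, hσS, hσZ,
      neg_neg, hσσδ2]
  have hnw : w * σ (σ w) * σ (σ (σ (σ w))) = algebraMap F K (μ ^ 2) := by
    rw [hσ4w, hσσw, hw, map_pow, ← hm]
    have e1 : (Z / S + δ) * (Z / S + W * δ) * (Z / S + W ^ 2 * δ) =
        (Z / S) ^ 3 + W ^ 3 * δ ^ 3 + (W ^ 2 + W + 1) * ((Z / S) ^ 2 * δ) +
          (W ^ 2 + W + 1) * W * ((Z / S) * δ ^ 2) := by ring
    have e2 : (Z / S) ^ 3 = Z ^ 3 / (3 * S) := by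
      rw [div_pow]
      congr 1
      rw [← hS2]; ring
    rw [e1, hW2, hW3, e2, ← hμ']
    ring
  obtain ⟨v0, hv0⟩ := isSquare_of_norm hF hK h2 w μ hμ0 hnw
  -- choose sign
  obtain ⟨v, hv, hvn⟩ : ∃ v : K, v ^ 2 = w ∧ v * σ (σ v) * σ (σ (σ (σ v))) = m := by
    have e : (v0 * σ (σ v0) * σ (σ (σ (σ v0))) - m) *
        (v0 * σ (σ v0) * σ (σ (σ (σ v0))) + m) = 0 := by
      have : (v0 * σ (σ v0) * σ (σ (σ (σ v0)))) ^ 2 = m ^ 2 := by
        rw [mul_pow, mul_pow, ← map_pow, ← map_pow, ← map_pow, ← map_pow, ← map_pow, ← map_pow,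
          sq v0, ← hv0, hnw, map_pow, ← hm]
      linear_combination this
    rcases mul_eq_zero.1 e with h | h
    · exact ⟨v0, by rw [sq, ← hv0], by linear_combination h⟩
    · refine ⟨-v0, by rw [neg_sq, sq, ← hv0], ?_⟩
      simp only [map_neg]
      linear_combination -h
  -- a, b, c
  have hσ6 : ∀ x : K, σ (σ (σ (σ (σ (σ x))))) = x := fr_six' hF hK
  set v1 := σ v with hv1
  set v2 := σ v1 with hv2
  set v3 := σ v2 with hv3
  set v4 := σ v3 with hv4
  set v5 := σ v4 with hv5
  have hv6 : σ v5 = v := by rw [hv5, hv4, hv3, hv2, hv1, hσ6]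
  have hvn' : v * v2 * v4 = m := hvn
  have hvn1 : v1 * v3 * v5 = algebraMap F K (cj k F μ) := by
    have := congrArg σ hvn'
    rw [map_mul, map_mul, ← hv3, ← hv5, hm, hσ, fr_F] at this
    exact this
  set A := v * v3 with hA
  set B := v1 * v4 with hB
  set C := v2 * v5 with hC
  have hσA : σ A = B := by rw [hA, map_mul]
  have hσB : σ B = C := by rw [hB, map_mul]
  have hσC : σ C = A := by rw [hC, map_mul, hv6, ← hv3, mul_comm]
  set d1 := σ δ with hd1
  set d3 := σ (σ d1) with hd3
  -- squares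
  have s0 : v ^ 2 = Z / S + δ := hv
  have s1 : v1 ^ 2 = -(Z / S) + d1 := by rw [hv1, ← map_pow, hv, hσw]
  have s2 : v2 ^ 2 = Z / S + W * δ := by rw [hv2, ← map_pow, s1, ← hσw, hσσw]
  have hd3' : d3 = W ^ 2 * d1 := by
    rw [hd3, hd1, hσδ, map_mul, hσW]
  have s3' : v3 ^ 2 = -(Z / S) + d3 := by
    rw [hv3, ← map_pow, s2, map_add, map_div₀, hσZ, hσS, hd3, hd1, hσδ, div_neg]
  have s4 : v4 ^ 2 = Z / S + W ^ 2 * δ := by
    rw [hv4, hv3, ← map_pow, ← map_pow, s2, ← hσσw, hσ4w]
  have s5 : v5 ^ 2 = -(Z / S) + W * d1 := by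
    rw [hv5, ← map_pow, s4, map_add, map_div₀, hσZ, hσS, map_mul, map_pow, hσW, div_neg,
      ← hd1]
    have : (W ^ 2) ^ 2 = W := by linear_combination W * hW3
    rw [this]
  have hn' : algebraMap k K n = δ * (W ^ 2 * d1) := by
    rw [hn, tau_eq, ← hd3', hd3, hd1]
  have hN' : algebraMap k K N = m * (v1 * v3 * v5) := by
    rw [hvn1, hm, ← map_mul, ← hN, ← IsScalarTower.algebraMap_apply]
  have hABC : A * B * C = algebraMap k K N := by
    rw [hN', ← hvn', hA, hB, hC]; ring
  have hA2 : A ^ 2 = (Z / S + δ) * (-(Z / S) + W ^ 2 * d1) := by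
    rw [hA, mul_pow, s0, s3', hd3']
  have hB2 : B ^ 2 = (-(Z / S) + d1) * (Z / S + W ^ 2 * δ) := by
    rw [hB, mul_pow, s1, s4]
  have hC2 : C ^ 2 = (Z / S + W * δ) * (-(Z / S) + W * d1) := by
    rw [hC, mul_pow, s2, s5]
  have hzs : (Z / S) ^ 2 = Z ^ 2 / 3 := by rw [div_pow, hS2]
  have key1 : A ^ 2 + B ^ 2 + C ^ 2 = 3 * algebraMap k K n - Z ^ 2 := by
    rw [hA2, hB2, hC2, hn']
    have : (Z / S + δ) * (-(Z / S) + W ^ 2 * d1) + (-(Z / S) + d1) * (Z / S + W ^ 2 * δ) +
        (Z / S + W * δ) * (-(Z / S) + W * d1) =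
        3 * (δ * (W ^ 2 * d1)) - 3 * (Z / S) ^ 2 + (W ^ 2 + W + 1) * (Z / S * (d1 - δ)) := by
      ring
    rw [this, hW2, hzs]
    field_simp
    ring
  have key2 : A ^ 2 * B ^ 2 + B ^ 2 * C ^ 2 + C ^ 2 * A ^ 2 =
      3 * (algebraMap k K n) ^ 2 - algebraMap k K n * Z ^ 2 + Z ^ 4 / 3 := by
    rw [hA2, hB2, hC2, hn']
    have h3i : Z ^ 4 / 3 = 3 * (Z / S) ^ 4 := by
      have : (Z / S) ^ 4 = ((Z / S) ^ 2) ^ 2 := by ring
      rw [this, hzs]; field_simp
    have h3j : Z ^ 2 = 3 * (Z / S) ^ 2 := by rw [hzs]; field_simp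
    rw [h3i, h3j]
    set y := Z / S with hy
    linear_combination (-W ^ 2 * y ^ 2 * δ * d1 + (-2) * W ^ 2 * y * δ ^ 2 * d1 +
      (2) * W ^ 2 * y * δ * d1 ^ 2 + W * y ^ 2 * δ ^ 2 - W * y ^ 2 * δ * d1 +
      W * y ^ 2 * d1 ^ 2 + (2) * y ^ 3 * δ + (-2) * y ^ 3 * d1 - y ^ 2 * δ * d1) * hW2
  have key3 : ∀ M : k, algebraMap k K (quartic (3 * n) (z ^ 2) (2 * N) M) =
      3 * ((algebraMap k K M - (A + B + C)) * (algebraMap k K M - (A - B - C)) *
        (algebraMap k K M - (-A + B - C)) * (algebraMap k K M - (-A - B + C))) := by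
    intro M
    have e0 : algebraMap k K (quartic (3 * n) (z ^ 2) (2 * N) M) =
        3 * (algebraMap k K M) ^ 4 - 6 * (3 * algebraMap k K n - Z ^ 2) * (algebraMap k K M) ^ 2 -
          24 * algebraMap k K N * algebraMap k K M - (3 * algebraMap k K n + Z ^ 2) ^ 2 := by
      unfold quartic
      simp only [map_sub, map_mul, map_pow, map_add, map_ofNat]
      ring
    rw [e0]
    set X := algebraMap k K M
    have e1 : (X - (A + B + C)) * (X - (A - B - C)) * (X - (-A + B - C)) * (X - (-A - B + C)) =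
        X ^ 4 - 2 * (A ^ 2 + B ^ 2 + C ^ 2) * X ^ 2 - 8 * (A * B * C) * X +
          (A ^ 2 + B ^ 2 + C ^ 2) ^ 2 -
          4 * (A ^ 2 * B ^ 2 + B ^ 2 * C ^ 2 + C ^ 2 * A ^ 2) := by ring
    rw [e1, key1, key2, hABC]
    field_simp
    ring
  have hy0 : Z / S ≠ 0 := div_ne_zero hZ0 hS0
  -- no two of the squares conditions
  have hne : ¬ (A = B ∧ B = C) := by
    rintro ⟨hab, hbc⟩
    have e1 : (Z / S) * ((W ^ 2 - 1) * (d1 + δ)) = 0 := by
      have : A ^ 2 - B ^ 2 = 0 := by rw [hab]; ring
      rw [hA2, hB2] at this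
      linear_combination this
    have e2 : (Z / S) * ((1 - W) * (W * d1 + δ)) = 0 := by
      have : A ^ 2 - C ^ 2 = 0 := by rw [hab, hbc]; ring
      rw [hA2, hC2] at this
      linear_combination -this
    have w1 : W ^ 2 - 1 ≠ 0 := by
      intro h
      have : (W - 1) * (W + 1) = 0 := by linear_combination h
      rcases mul_eq_zero.1 this with h | h
      · exact hW1 (by linear_combination h)
      · have hWm : W = -1 := by linear_combination h
        rw [hWm] at hW2
        norm_num at hW2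
    have w2 : (1 : K) - W ≠ 0 := by
      intro h
      exact hW1 (by linear_combination -h)
    have f1 : d1 + δ = 0 := by
      rcases mul_eq_zero.1 e1 with h | h
      · exact absurd h hy0
      · rcases mul_eq_zero.1 h with h | h
        · exact absurd h w1
        · exact h
    have f2 : W * d1 + δ = 0 := by
      rcases mul_eq_zero.1 e2 with h | h
      · exact absurd h hy0
      · rcases mul_eq_zero.1 h with h | h
        · exact absurd h w2
        · exact h
    have f3 : (1 - W) * d1 = 0 := by linear_combination f1 - f2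
    rcases mul_eq_zero.1 f3 with h | h
    · exact w2 h
    · apply hδ0
      linear_combination f1 - h
  obtain ⟨M0, hM0⟩ : ∃ u : k, algebraMap k K u = A + B + C := by
    apply fixed_k
    rw [map_add, map_add]
    change σ A + σ B + σ C = _
    rw [hσA, hσB, hσC]
    ring
  have hAB : A = B → B = C := by
    intro h
    rw [← hσA, ← hσB, h]
  refine ⟨M0, ?_, ?_⟩
  · have := key3 M0
    rw [hM0, sub_self] at this
    simp only [zero_mul, mul_zero] at this
    exact (map_eq_zero _).1 this
  · intro M hM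
    have hk := key3 M
    rw [hM, map_zero] at hk
    have hfix : σ (algebraMap k K M) = algebraMap k K M := by rw [hσ, fr_algebraMap]
    have h1 := (mul_eq_zero.1 hk.symm).resolve_left h3K
    rcases mul_eq_zero.1 h1 with h1 | h4
    · rcases mul_eq_zero.1 h1 with h1 | h3
      · rcases mul_eq_zero.1 h1 with h1 | h2'
        · apply (algebraMap k K).injective
          rw [hM0]
          linear_combination h1
        · exfalso
          have e1 : algebraMap k K M = A - B - C := by linear_combination h2'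
          have e2 := congrArg σ e1
          rw [hfix, map_sub, map_sub, hσA, hσB, hσC] at e2
          have : 2 * (A - B) = 0 := by linear_combination e2 - e1
          have hab : A = B := by
            have := (mul_eq_zero.1 this).resolve_left h2K
            linear_combination this
          exact hne ⟨hab, hAB hab⟩
      · exfalso
        have e1 : algebraMap k K M = -A + B - C := by linear_combination h3
        have e2 := congrArg σ e1
        rw [hfix, map_sub, map_add, map_neg, hσA, hσB, hσC] at e2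
        have : 2 * (B - C) = 0 := by linear_combination e2 - e1
        have hbc : B = C := by
          have := (mul_eq_zero.1 this).resolve_left h2K
          linear_combination this
        have hab : A = B := by
          have := congrArg σ hbc
          rw [hσB, hσC] at this
          rw [← this, hbc]
        exact hne ⟨hab, hbc⟩
    · exfalso
      have e1 : algebraMap k K M = -A - B + C := by linear_combination h4
      have e2 := congrArg σ e1
      rw [hfix, map_add, map_sub, map_neg, hσA, hσB, hσC] at e2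
      have : 2 * (C - A) = 0 := by linear_combination e2 - e1
      have hca : C = A := by
        have := (mul_eq_zero.1 this).resolve_left h2K
        linear_combination this
      have hab : A = B := by
        have := congrArg σ hca
        rw [hσC, hσA] at this
        exact this
      exact hne ⟨hab, hAB hab⟩

end tower

end Pool.Agent.Helper61.Hemi
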