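import Mathlib
import Pool.Agent.Helper61.Hemi.EvalA
import Pool.Agent.Helper61.Hemi.Root
import Pool.Agent.Helper93.Hemi.Goals2

/-!
MP_7aba51_co, part II: the evaluation `S = ± 3 q (q-1)`.
-/

set_option autoImplicit false
set_option linter.unusedSectionVars false

open Classical

namespace Pool.Agent.Helper61.Hemi

open Pool.Agent.Helper93.Hemi

section base

variable {k E : Type} [Field k] [Fintype k] [Field E] [Fintype E] [Algebra k E]
variable (c : Ctx k E)

/-- The correction term. -/
noncomputable def corr (Y μ : E) (α : Eˣ) : ℤ :=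
  if (- tr k E ((α : E) ^ 3 * μ * cj k E c.ρ)) = 0 ∧
    cj k E ((algebraMap k E c.i * (α : E) ^ 2 * cj k E Y * cj k E c.ρ) ^ 3) =
      (algebraMap k E c.i * (α : E) ^ 2 * cj k E Y * cj k E c.ρ) ^ 3 then
    (Fintype.card k : ℤ) else 0

theorem S_eq (hK0 : GoalK0) (hK1 : GoalK1) {Y μ : E} (hY : Y ≠ 0)
    (hκ : cj k E (kap c Y μ) = - kap c Y μ) :
    c.S Y μ = ∑ α : Eˣ, (T (nm k E Y) (nm k E μ)
        (tr k E (kap c Y μ * (cj k E (α : E) / (α : E)) ^ 3)) -
      T (nm k E Y) (nm k E μ)
        (tr k E (kap c Y μ * (c.ρ ^ 2 * (cj k E (α : E) / (α : E)) ^ 3)))) -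
      ∑ α : Eˣ, quadraticChar k (nm k E (α : E)) * corr c Y μ α := by
  have hi0 : algebraMap k E c.i ≠ 0 := by
    intro h
    have := i_sq c
    rw [h] at this
    norm_num at this
  have hY' : cj k E Y ≠ 0 := fun h => hY (cj_eq_zero.1 h)
  have hρ' : cj k E c.ρ ≠ 0 := fun h => c.ρ_ne (cj_eq_zero.1 h)
  unfold Ctx.S
  have e1 : ∀ α : Eˣ, quadraticChar k (nm k E α) *
    ((c.PP c.ρ (algebraMap k E c.i * (α : E) ^ 2 * cj k E Y) (- tr k E ((α : E) ^ 3 * μ)) : ℤ)
      - (c.PP 1 (algebraMap k E c.i * (α : E) ^ 2 * cj k E Y * cj k E c.ρ)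
          (- tr k E ((α : E) ^ 3 * μ * cj k E c.ρ)) : ℤ)) =
      3 * quadraticChar k (nm k E α) + (T (nm k E Y) (nm k E μ)
        (tr k E (kap c Y μ * (cj k E (α : E) / (α : E)) ^ 3)) -
      T (nm k E Y) (nm k E μ)
        (tr k E (kap c Y μ * (c.ρ ^ 2 * (cj k E (α : E) / (α : E)) ^ 3)))) -
      quadraticChar k (nm k E (α : E)) * corr c Y μ α := by
    intro α
    have h0 : (α : E) ≠ 0 := α.ne_zero
    have ha : nm k E (α : E) ≠ 0 := fun h => h0 ((nm_eq_zero c.finE).1 h)
    have hsq : quadraticChar k (nm k E (α : E)) ^ 2 = 1 := quadraticChar_sq_one ha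
    rw [hK0 k E c _ _ (mul_ne_zero (mul_ne_zero hi0 (pow_ne_zero 2 h0)) hY'),
      hK1 k E c _ _ (mul_ne_zero (mul_ne_zero (mul_ne_zero hi0 (pow_ne_zero 2 h0)) hY') hρ'),
      T0_eq c hκ, T1_eq c hκ]
    change _ = _ - quadraticChar k (nm k E (α : E)) * (if _ then _ else _)
    linear_combination (T (nm k E Y) (nm k E μ)
        (tr k E (kap c Y μ * (cj k E (α : E) / (α : E)) ^ 3)) -
      T (nm k E Y) (nm k E μ)
        (tr k E (kap c Y μ * (c.ρ ^ 2 * (cj k E (α : E) / (α : E)) ^ 3)))) * hsq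
  rw [Finset.sum_congr rfl fun α _ => e1 α, Finset.sum_sub_distrib, Finset.sum_add_distrib,
    ← Finset.mul_sum, sum_norm_char c.two_ne]
  ring

include c in
/-- There is `s` with `s² = -3`, `s̄ = -s`. -/
theorem exists_s : ∃ s : E, s ^ 2 = -3 ∧ cj k E s = -s := by
  refine ⟨2 * c.ω + 1, ?_, ?_⟩
  · linear_combination 4 * c.hω
  · rw [map_add, map_mul, map_ofNat, map_one, c.cj_ω]
    linear_combination 2 * c.hω

/-- No correction if `κ ≠ 0`. -/
theorem corr_zero {Y μ : E} (hκ : cj k E (kap c Y μ) = - kap c Y μ) (hk0 : kap c Y μ ≠ 0)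
    (α : Eˣ) : corr c Y μ α = 0 := by
  unfold corr
  rw [if_neg]
  rintro ⟨h1, h2⟩
  have h0 : (α : E) ≠ 0 := α.ne_zero
  have h0' : cj k E (α : E) ≠ 0 := fun h => h0 (cj_eq_zero.1 h)
  have hr' : cj k E c.ρ ≠ 0 := fun h => c.ρ_ne (cj_eq_zero.1 h)
  have h3 := congrArg (algebraMap k E) h1
  rw [map_neg, tr_formula c.finE, map_zero] at h3
  simp only [map_mul, map_pow, cj_cj c.finE, cj_algebraMap] at h3 h2
  have hi := i_sq c
  have hρ := c.hρ
  have hρn := c.ρ_ne
  have hK : kap c Y μ = μ ^ 2 + 4 * algebraMap k E c.i * cj k E c.ρ * cj k E Y ^ 3 := rfl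
  have hK' : -kap c Y μ = cj k E μ ^ 2 + 4 * algebraMap k E c.i * c.ρ * Y ^ 3 := by
    rw [← hκ, hK]
    simp only [map_add, map_mul, map_pow, cj_cj c.finE, cj_algebraMap, map_ofNat]
  set A := (α : E)
  set A' := cj k E A
  set y' := cj k E Y
  set m' := cj k E μ
  set r := c.ρ
  set r' := cj k E r
  set I := algebraMap k E c.i
  have e1 : kap c Y μ * (A ^ 6 * r' ^ 2 + A' ^ 6 * r ^ 2) = 0 := by
    have p1 : kap c Y μ * (A ^ 6 * r' ^ 2) = (A ^ 3 * μ * r') ^ 2 +
        4 * I * (A ^ 6 * r' ^ 3 * y' ^ 3) := by rw [hK]; ring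
    have p2 : -kap c Y μ * (A' ^ 6 * r ^ 2) = (A' ^ 3 * m' * r) ^ 2 +
        4 * I * (A' ^ 6 * r ^ 3 * Y ^ 3) := by rw [hK']; ring
    linear_combination p1 - p2 + (-(A ^ 3 * μ * r') + (A' ^ 3 * m' * r)) * h3 + 4 * h2 +
      4 * I * (A ^ 6 * r' ^ 3 * y' ^ 3 - A' ^ 6 * r ^ 3 * Y ^ 3) * hi
  have e2 : A ^ 6 * r' ^ 2 + A' ^ 6 * r ^ 2 = 0 := (mul_eq_zero.1 e1).resolve_left hk0
  -- e = A^3 r' / (A'^3 r) has e^2 = -1
  have e3 : (A ^ 3 * r' / (A' ^ 3 * r) - I) * (A ^ 3 * r' / (A' ^ 3 * r) + I) = 0 := by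
    field_simp
    linear_combination e2 - (A' ^ 6 * r ^ 2) * hi
  have e4 : cj k E (A ^ 3 * r' / (A' ^ 3 * r)) = A ^ 3 * r' / (A' ^ 3 * r) := by
    rcases mul_eq_zero.1 e3 with h | h
    · have : A ^ 3 * r' / (A' ^ 3 * r) = I := by linear_combination h
      rw [this, cj_algebraMap]
    · have : A ^ 3 * r' / (A' ^ 3 * r) = -I := by linear_combination h
      rw [this, map_neg, cj_algebraMap]
  have e5 : cj k E (A ^ 3 * r' / (A' ^ 3 * r)) = A' ^ 3 * r / (A ^ 3 * r') := by
    simp only [map_mul, map_pow, map_div₀]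
    rw [cj_cj c.finE, cj_cj c.finE]
  rw [e5] at e4
  have e6 : A' ^ 6 * r ^ 2 = A ^ 6 * r' ^ 2 := by
    field_simp at e4
    linear_combination e4
  have e7 : 2 * (A ^ 6 * r' ^ 2) = 0 := by linear_combination e2 - e6
  rcases mul_eq_zero.1 e7 with h | h
  · exact c.two_ne_E h
  · exact (mul_ne_zero (pow_ne_zero 6 h0) (pow_ne_zero 2 hr')) h

/-- The correction sum if `κ = 0`. -/
theorem corr_sum {Y μ : E} (hY : Y ≠ 0) (hk0 : kap c Y μ = 0) :
    ∑ α : Eˣ, quadraticChar k (nm k E (α : E)) * corr c Y μ α =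
      -(quadraticChar k (nm k E μ)) * (3 * Fintype.card k * (Fintype.card k - 1)) ∧
      quadraticChar k (nm k E μ) ^ 2 = 1 := by
  have hi := i_sq c
  have hρ := c.hρ
  have hρn := c.ρ_ne
  have hr' : cj k E c.ρ ≠ 0 := fun h => c.ρ_ne (cj_eq_zero.1 h)
  have hY' : cj k E Y ≠ 0 := fun h => hY (cj_eq_zero.1 h)
  have h2 := c.two_ne_E
  have hi0 : algebraMap k E c.i ≠ 0 := by
    intro h
    rw [h] at hi
    norm_num at hi
  have hK : μ ^ 2 = -(4 * algebraMap k E c.i * cj k E c.ρ * cj k E Y ^ 3) := by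
    have : kap c Y μ = μ ^ 2 + 4 * algebraMap k E c.i * cj k E c.ρ * cj k E Y ^ 3 := rfl
    rw [this] at hk0
    linear_combination hk0
  have hμ : μ ≠ 0 := by
    rintro rfl
    have h4 : (4 : E) ≠ 0 := by
      have : (4 : E) = 2 ^ 2 := by norm_num
      rw [this]; exact pow_ne_zero 2 h2
    apply mul_ne_zero (mul_ne_zero (mul_ne_zero h4 hi0) hr') (pow_ne_zero 3 hY')
    linear_combination hK
  have hμn : nm k E μ ≠ 0 := fun h => hμ ((nm_eq_zero c.finE).1 h)
  have hμs : quadraticChar k (nm k E μ) ^ 2 = 1 := quadraticChar_sq_one hμn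
  refine ⟨?_, hμs⟩
  -- the elements with trace zero
  set Zs : Finset Eˣ := Finset.univ.filter
    (fun α : Eˣ => tr k E ((α : E) ^ 3 * μ * cj k E c.ρ) = 0) with hZs
  have hcorr : ∀ α : Eˣ, corr c Y μ α = if α ∈ Zs then (Fintype.card k : ℤ) else 0 := by
    intro α
    unfold corr
    congr 1
    simp only [hZs, Finset.mem_filter, Finset.mem_univ, true_and, neg_eq_zero, eq_iff_iff]
    constructor
    · exact fun h => h.1
    · intro h1
      refine ⟨h1, ?_⟩
      have h3 := congrArg (algebraMap k E) h1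
      rw [tr_formula c.finE, map_zero] at h3
      simp only [map_mul, map_pow, cj_cj c.finE, cj_algebraMap] at h3 ⊢
      have hK' := congrArg (cj k E) hK
      simp only [map_mul, map_pow, map_neg, cj_cj c.finE, cj_algebraMap, map_ofNat] at hK'
      have h44 : (4 : E) ≠ 0 := by
        have : (4 : E) = 2 ^ 2 := by norm_num
        rw [this]; exact pow_ne_zero 2 h2
      apply mul_left_cancel₀ h44
      set A := (α : E)
      set A' := cj k E A
      set y' := cj k E Y
      set m' := cj k E μ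
      set r := c.ρ
      set r' := cj k E r
      set I := algebraMap k E c.i
      linear_combination (A' ^ 3 * m' * r - A ^ 3 * μ * r') * h3 +
        (A ^ 6 * r' ^ 2) * hK - (A' ^ 6 * r ^ 2) * hK' +
        4 * I * (A' ^ 6 * r ^ 3 * Y ^ 3 - A ^ 6 * r' ^ 3 * y' ^ 3) * hi
  -- the character on `Zs`
  have hchar : ∀ α ∈ Zs, quadraticChar k (nm k E (α : E)) = -quadraticChar k (nm k E μ) := by
    intro α hα
    have h0 : (α : E) ≠ 0 := α.ne_zero
    have ha : nm k E (α : E) ≠ 0 := fun h => h0 ((nm_eq_zero c.finE).1 h)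
    have h1 := (Finset.mem_filter.1 hα).2
    have h3 := congrArg (algebraMap k E) h1
    rw [tr_formula c.finE, map_zero] at h3
    set p := (α : E) ^ 3 * μ * cj k E c.ρ with hp
    have hp0 : p ≠ 0 := mul_ne_zero (mul_ne_zero (pow_ne_zero 3 h0) hμ) hr'
    have hpn : nm k E p ≠ 0 := fun h => hp0 ((nm_eq_zero c.finE).1 h)
    have h4 : quadraticChar k (nm k E p) = -1 := by
      apply (quadraticChar_neg_one_iff_not_isSquare).2
      rintro ⟨u, hu⟩
      have h5 := congrArg (algebraMap k E) hu
      rw [nm_formula c.finE, (algebraMap k E).map_mul] at h5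
      have h6 : (p - algebraMap k E c.i * algebraMap k E u) *
          (p + algebraMap k E c.i * algebraMap k E u) = 0 := by
        linear_combination p * h3 - h5 - (algebraMap k E u) ^ 2 * hi
      have h7 : cj k E p = p := by
        rcases mul_eq_zero.1 h6 with h | h
        · have : p = algebraMap k E c.i * algebraMap k E u := by linear_combination h
          rw [this, map_mul, cj_algebraMap, cj_algebraMap]
        · have : p = -(algebraMap k E c.i * algebraMap k E u) := by linear_combination h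
          rw [this, map_neg, map_mul, cj_algebraMap, cj_algebraMap]
      rw [h7] at h3
      have : 2 * p = 0 := by linear_combination h3
      exact (mul_ne_zero h2 hp0) this
    have h8 : nm k E p = nm k E (α : E) ^ 3 * nm k E μ := by
      apply algebraMap_inj (E := E)
      simp only [map_mul, map_pow, nm_formula c.finE, hp, cj_cj c.finE]
      linear_combination ((α : E) ^ 3 * cj k E (α : E) ^ 3 * μ * cj k E μ) * hρ
    rw [h8, map_mul, map_pow] at h4
    have h9 : quadraticChar k (nm k E (α : E)) ^ 2 = 1 := quadraticChar_sq_one ha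
    rw [pow_succ, h9, one_mul] at h4
    linear_combination (quadraticChar k (nm k E μ)) * h4 -
      (quadraticChar k (nm k E (α : E))) * hμs
  -- the number of elements
  have hcard : (Zs.card : ℤ) = 3 * (Fintype.card k - 1) := by
    obtain ⟨s, hs, hs'⟩ := exists_s (E := E) c
    have hs0 := s_ne c hs hs'
    obtain ⟨v, hv⟩ := c.cube_bij.2 (-(4 * c.i))
    simp only at hv
    have hvE : (algebraMap k E v) ^ 3 = -(4 * algebraMap k E c.i) := by
      rw [← map_pow, hv, map_neg, map_mul, map_ofNat]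
    have hv0 : algebraMap k E v ≠ 0 := by
      intro h
      rw [h] at hvE
      have h4 : (4 : E) ≠ 0 := by
        have : (4 : E) = 2 ^ 2 := by norm_num
        rw [this]; exact pow_ne_zero 2 h2
      apply mul_ne_zero h4 hi0
      linear_combination hvE
    set γ : E := algebraMap k E v * s * cj k E Y / μ with hγ
    have hγ0 : γ ≠ 0 := div_ne_zero (mul_ne_zero (mul_ne_zero hv0 hs0) hY') hμ
    have hγ3 : γ ^ 3 * μ * cj k E c.ρ = s ^ 3 := by
      rw [hγ, div_pow, mul_pow, mul_pow, hvE]
      field_simp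
      rw [hK]
      ring
    have hω1 : c.ω ≠ 1 := by
      intro h
      have := c.hω
      rw [h] at this
      apply c.three_ne_E
      linear_combination this
    have hω0 : c.ω ≠ 0 := by
      intro h
      have := c.ω3
      rw [h] at this
      norm_num at this
    have hcu : (Fintype.card kˣ : ℤ) = Fintype.card k - 1 := by
      rw [Fintype.card_units]
      have : 1 ≤ Fintype.card k := Fintype.card_pos
      push_cast [this]; ring
    have : (3 * ((Fintype.card k : ℤ) - 1)) = ((Fintype.card (Fin 3 × kˣ) : ℕ) : ℤ) := by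
      rw [Fintype.card_prod, Fintype.card_fin]
      push_cast
      rw [hcu]
    rw [this]
    congr 1
    rw [← Finset.card_univ]
    symm
    refine Finset.card_bij (fun p _ => Units.mk0 (c.ω ^ (p.1 : ℕ) *
      (algebraMap k E (p.2 : k) * γ)) (mul_ne_zero (pow_ne_zero _ hω0)
        (mul_ne_zero ((map_ne_zero _).2 p.2.ne_zero) hγ0))) ?_ ?_ ?_
    · rintro ⟨j, u⟩ _
      simp only [hZs, Finset.mem_filter, Finset.mem_univ, true_and, Units.val_mk0]
      have hωj : (c.ω ^ (j : ℕ)) ^ 3 = 1 := by rw [← pow_mul, mul_comm, pow_mul, c.ω3, one_pow]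
      have e1 : (c.ω ^ (j : ℕ) * (algebraMap k E (u : k) * γ)) ^ 3 * μ * cj k E c.ρ =
          algebraMap k E ((u : k) ^ 3) * s ^ 3 := by
        rw [mul_pow, hωj, mul_pow, map_pow]
        linear_combination (algebraMap k E (u : k)) ^ 3 * hγ3
      rw [e1, tr_algebraMap_mul]
      have e2 : tr k E (s ^ 3) = 0 := by
        apply algebraMap_inj (E := E)
        rw [tr_formula c.finE, map_pow, hs', map_zero]
        ring
      rw [e2, mul_zero]
    · rintro ⟨j, u⟩ _ ⟨j', u'⟩ _ h
      have h1 := congrArg (fun x : Eˣ => (x : E)) h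
      simp only [Units.val_mk0] at h1
      have h1' : c.ω ^ (j : ℕ) * algebraMap k E (u : k) =
          c.ω ^ (j' : ℕ) * algebraMap k E (u' : k) := by
        apply mul_right_cancel₀ hγ0
        linear_combination h1
      have hωj : ∀ j : ℕ, (c.ω ^ j) ^ 3 = 1 := fun j => by
        rw [← pow_mul, mul_comm, pow_mul, c.ω3, one_pow]
      have h3 := congrArg (fun x => x ^ 3) h1'
      simp only [mul_pow, hωj, one_mul] at h3
      rw [← map_pow, ← map_pow] at h3
      have h4 := c.cube_bij.1 (algebraMap_inj h3)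
      have hu : u = u' := Units.ext h4
      subst hu
      have h5 : c.ω ^ (j : ℕ) = c.ω ^ (j' : ℕ) :=
        mul_right_cancel₀ ((map_ne_zero (algebraMap k E)).2 u.ne_zero) h1'
      have h6 : j = j' := by
        have hω2 : c.ω ^ 2 ≠ 1 := by
          intro h
          apply hω1
          have := c.ω3
          linear_combination this - c.ω * h
        have hω12 : c.ω ≠ c.ω ^ 2 := by
          intro h
          apply hω1
          apply mul_left_cancel₀ hω0
          linear_combination -h
        fin_cases j <;> fin_cases j' <;> simp at h5 ⊢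
        · exact hω1 h5.symm
        · exact hω2 h5.symm
        · exact hω1 h5
        · exact hω12 h5
        · rcases h5 with h5 | h5
          · exact hω1 h5
          · exact hω2 (by rw [h5]; ring)
        · exact hω12 h5.symm
      rw [h6]
    · intro α hα
      have h0 : (α : E) ≠ 0 := α.ne_zero
      have h1 := (Finset.mem_filter.1 hα).2
      have h3 := congrArg (algebraMap k E) h1
      rw [tr_formula c.finE, map_zero] at h3
      set p := (α : E) ^ 3 * μ * cj k E c.ρ with hp
      have hp0 : p ≠ 0 := mul_ne_zero (mul_ne_zero (pow_ne_zero 3 h0) hμ) hr'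
      have h4 : cj k E (p / s ^ 3) = p / s ^ 3 := by
        rw [map_div₀, map_pow, hs']
        have : cj k E p = -p := by linear_combination h3
        rw [this]
        field_simp
      obtain ⟨u0, hu0⟩ := exists_k h4
      obtain ⟨u, hu⟩ := c.cube_bij.2 u0
      simp only at hu
      have hu0' : u ≠ 0 := by
        rintro rfl
        rw [← hu] at hu0
        simp only [ne_eq, OfNat.ofNat_ne_zero, not_false_eq_true, zero_pow, map_zero] at hu0
        exact (div_ne_zero hp0 (pow_ne_zero 3 hs0)) hu0.symm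
      have huE : algebraMap k E u ≠ 0 := (map_ne_zero _).2 hu0'
      have h5 : (α : E) ^ 3 = (algebraMap k E u * γ) ^ 3 := by
        have e1 : (algebraMap k E u) ^ 3 * s ^ 3 = p := by
          rw [← map_pow, hu, hu0]
          field_simp
        have e2 : (α : E) ^ 3 * (μ * cj k E c.ρ) =
            (algebraMap k E u * γ) ^ 3 * (μ * cj k E c.ρ) := by
          rw [mul_pow]
          linear_combination -e1 - (algebraMap k E u) ^ 3 * hγ3 + hp
        exact mul_right_cancel₀ (mul_ne_zero hμ hr') e2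
      have hω := c.hω
      have h6 : ((α : E) - algebraMap k E u * γ) * ((α : E) - c.ω * (algebraMap k E u * γ)) *
          ((α : E) - c.ω ^ 2 * (algebraMap k E u * γ)) = 0 := by
        set B := algebraMap k E u * γ
        linear_combination h5 + (-(α : E) ^ 2 * B + c.ω * (α : E) * B ^ 2 -
          (c.ω - 1) * B ^ 3) * hω
      rcases mul_eq_zero.1 h6 with h | h
      · rcases mul_eq_zero.1 h with h | h
        · refine ⟨(0, Units.mk0 u hu0'), Finset.mem_univ _, ?_⟩
          ext
          simp only [Units.val_mk0, Fin.val_zero, pow_zero, one_mul]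
          linear_combination -h
        · refine ⟨(1, Units.mk0 u hu0'), Finset.mem_univ _, ?_⟩
          ext
          simp only [Units.val_mk0, Fin.val_one, pow_one]
          linear_combination -h
      · refine ⟨(2, Units.mk0 u hu0'), Finset.mem_univ _, ?_⟩
        ext
        simp only [Units.val_mk0, Fin.val_two]
        linear_combination -h
  have e1 : ∀ α : Eˣ, quadraticChar k (nm k E (α : E)) * corr c Y μ α =
      if α ∈ Zs then (-quadraticChar k (nm k E μ)) * (Fintype.card k : ℤ) else 0 := by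
    intro α
    rw [hcorr]
    split_ifs with h
    · rw [hchar α h]
    · rw [mul_zero]
  rw [Finset.sum_congr rfl fun α _ => e1 α, Finset.sum_ite_mem, Finset.univ_inter,
    Finset.sum_const, nsmul_eq_mul, hcard]
  ring

end base

end Pool.Agent.Helper61.Hemi
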