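import Mathlib
import Pool.Agent.Helper61.Hemi.EvalB

/-!
MP_7aba51_co, part II: the evaluation `S = ± 3 q (q-1)`, final step.
-/

set_option autoImplicit false
set_option linter.unusedSectionVars false

open Classical

namespace Pool.Agent.Helper61.Hemi

open Pool.Agent.Helper93.Hemi

section base

variable {k : Type} [Field k] [Fintype k]

/-- The value of the double sum, if the quartic has exactly one root. -/
theorem ev_pm (h2 : (2 : k) ≠ 0) (h3 : (3 : k) ≠ 0) (hm1 : quadraticChar k (-1) = 1) (D s C : k)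
    (hC : C ≠ 0) (hroot : ∃! M : k, quartic D s C M = 0) :
    ∑ h : k, ∑ P : k, quadraticChar k (h ^ 3 + P ^ 3 - D * h + s * P - C) = Fintype.card k ∨
    ∑ h : k, ∑ P : k, quadraticChar k (h ^ 3 + P ^ 3 - D * h + s * P - C) =
      -(Fintype.card k : ℤ) := by
  rw [ev1 h2 h3 hm1]
  obtain ⟨M0, hM0, huniq⟩ := hroot
  simp only at hM0 huniq
  by_cases hz : D + s = 0
  · have h0 : quartic D s C 0 = 0 := by
      unfold quartic
      rw [hz]; ring
    have hM00 : (0 : k) = M0 := huniq 0 h0
    have he : Finset.univ.filter (fun M : k => M ≠ 0 ∧ quartic D s C M = 0) = ∅ := by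
      rw [Finset.filter_eq_empty_iff]
      rintro M _ ⟨hM1, hM2⟩
      exact hM1 ((huniq M hM2).trans hM00.symm)
    rw [he, Finset.sum_empty, if_pos hz, zero_add]
    rcases quadraticChar_dichotomy hC with h | h
    · left; rw [h, mul_one]
    · right; rw [h]; ring
  · have hM00 : M0 ≠ 0 := by
      rintro rfl
      apply hz
      unfold quartic at hM0
      have : (D + s) ^ 2 = 0 := by linear_combination -hM0
      exact pow_eq_zero_iff (two_ne_zero) |>.1 this
    have he : Finset.univ.filter (fun M : k => M ≠ 0 ∧ quartic D s C M = 0) = {M0} := by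
      ext M
      simp only [Finset.mem_filter, Finset.mem_univ, true_and, Finset.mem_singleton]
      constructor
      · rintro ⟨_, hM2⟩
        exact huniq M hM2
      · rintro rfl
        exact ⟨hM00, hM0⟩
    rw [he, Finset.sum_singleton, if_neg hz, add_zero]
    rcases quadraticChar_dichotomy (mul_ne_zero h3 hM00) with h | h
    · left; rw [h, mul_one]
    · right; rw [h]; ring

theorem T_sum_lin (h2 : (2 : k) ≠ 0) (B N lam : k) (hl : lam ≠ 0) :
    ∑ p : k, T B N (lam * p) = 0 := by
  unfold T
  rw [Finset.sum_comm]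
  refine Finset.sum_eq_zero fun h _ => ?_
  have := sum_linear h2 (-lam) (4 * h ^ 3 + 12 * B * h + 2 * N) (neg_ne_zero.2 hl)
  rw [← this]
  refine Finset.sum_congr rfl fun p _ => ?_
  congr 1
  ring

theorem T_sum_cub (h2 : (2 : k) ≠ 0) (B N lam m : k) (hm : m ≠ 0) (hml : 4 * m ^ 3 = 3 * lam) :
    ∑ p : k, T B N (lam * (3 * (p - p ^ 3))) =
      ∑ h : k, ∑ P : k, quadraticChar k (h ^ 3 + P ^ 3 - (-3 * B) * h + (-m ^ 2) * P -
        (-(N / 2))) := by
  unfold T
  rw [Finset.sum_comm]
  refine Finset.sum_congr rfl fun h _ => ?_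
  symm
  rw [← Equiv.sum_comp (Equiv.mulLeft₀ m hm)]
  refine Finset.sum_congr rfl fun p _ => ?_
  rw [Equiv.mulLeft₀_apply]
  have e : 4 * h ^ 3 + 12 * B * h + 2 * N - lam * (3 * (p - p ^ 3)) =
      4 * (h ^ 3 + (m * p) ^ 3 - (-3 * B) * h + (-m ^ 2) * (m * p) - (-(N / 2))) := by
    field_simp
    linear_combination (2 * (p - p ^ 3)) * hml
  rw [e, map_mul, chi_four h2, one_mul]

end base

/-- EVAL. -/
theorem goalEval (hK0 : GoalK0) (hK1 : GoalK1) : GoalEval := by
  intro k E K _ _ _ _ _ _ _ _ _ _ c Y μ hY hrel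
  have hκ := cj_kap c.toCtx hrel
  have h2 := c.two_ne
  have h3 := c.three_ne
  have h2E := c.two_ne_E
  have h3E := c.three_ne_E
  have hS := S_eq c.toCtx hK0 hK1 hY hκ
  obtain ⟨s, hs, hs'⟩ := exists_s (E := E) c.toCtx
  have hs0 := s_ne c.toCtx hs hs'
  obtain ⟨lam, hl⟩ := exists_k (k := k) (x := kap c.toCtx Y μ * s) (by
    rw [map_mul, hκ, hs']; ring)
  have hU := unit_main c.toCtx hs hs' hκ hl (fun w => T (nm k E Y) (nm k E μ) w)
  rw [hU] at hS
  change c.toCtx.S Y μ = _ ∨ c.toCtx.S Y μ = _
  by_cases hk0 : kap c.toCtx Y μ = 0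
  · -- κ = 0
    obtain ⟨hc, hμs⟩ := corr_sum c.toCtx hY hk0
    have hl0 : lam = 0 := by
      apply algebraMap_inj (E := E)
      rw [hl, hk0, zero_mul, map_zero]
    rw [hc, hl0] at hS
    simp only [zero_mul, sub_self, mul_zero] at hS
    have hf : (quadraticChar k (nm k E μ) - 1) * (quadraticChar k (nm k E μ) + 1) = 0 := by
      linear_combination hμs
    rcases mul_eq_zero.1 hf with h | h
    · left
      have h' : quadraticChar k (nm k E μ) = 1 := by linear_combination h
      rw [hS, h']; ring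
    · right
      have h' : quadraticChar k (nm k E μ) = -1 := by linear_combination h
      rw [hS, h']; ring
  · -- κ ≠ 0
    have hc : ∑ α : Eˣ, quadraticChar k (nm k E (α : E)) * corr c.toCtx Y μ α = 0 := by
      refine Finset.sum_eq_zero fun α _ => ?_
      rw [corr_zero c.toCtx hκ hk0, mul_zero]
    have hl0 : lam ≠ 0 := by
      rintro rfl
      rw [map_zero] at hl
      exact (mul_ne_zero hk0 hs0) hl.symm
    obtain ⟨m, hm⟩ := c.cube_bij.2 (3 * lam / 4)
    simp only at hm
    have h4 : (4 : k) ≠ 0 := by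
      have : (4 : k) = 2 ^ 2 := by norm_num
      rw [this]; exact pow_ne_zero 2 h2
    have hml : 4 * m ^ 3 = 3 * lam := by
      rw [hm]; field_simp
    have hm0 : m ≠ 0 := by
      rintro rfl
      apply mul_ne_zero h3 hl0
      linear_combination -hml
    rw [hc, T_sum_lin h2 _ _ _ hl0, T_sum_cub h2 _ _ _ m hm0 hml, sub_zero, sub_zero] at hS
    -- the square of `i`
    have hi := i_sq c.toCtx
    have hi0 : c.i ≠ 0 := by
      intro h
      have := c.hi
      rw [h] at this
      norm_num at this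
    have hm1 : quadraticChar k (-1) = 1 := by
      rw [← c.hi, map_pow, quadraticChar_sq_one hi0]
    have hg0 : c.g ≠ 0 := by
      intro h
      have := c.hg
      rw [h, zero_mul] at this
      exact zero_ne_one this
    have htg : Pool.Agent.Helper52.Hemi.tau k K c.g = c.g⁻¹ := eq_inv_of_mul_eq_one_right c.hg
    -- the data of `ev2`
    have hYK : algebraMap E K (cj k E Y) ≠ 0 := (map_ne_zero _).2 (fun h => hY (cj_eq_zero.1 h))
    have hIK0 : algebraMap k K c.i ≠ 0 := (map_ne_zero _).2 hi0
    have hIKE : algebraMap k K c.i = algebraMap E K (algebraMap k E c.i) :=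
      IsScalarTower.algebraMap_apply k E K _
    set δ : K := -(algebraMap k K c.i * algebraMap E K (cj k E Y) * c.g⁻¹) with hδ
    have hδ0 : δ ≠ 0 := neg_ne_zero.2 (mul_ne_zero (mul_ne_zero hIK0 hYK) (inv_ne_zero hg0))
    have hω3 := c.ω3
    have hω0 : c.ω ≠ 0 := by
      intro h
      rw [h] at hω3
      norm_num at hω3
    have hωK : algebraMap E K c.ω ≠ 0 := (map_ne_zero _).2 hω0
    have hδσ : Pool.Agent.Helper52.Hemi.fr k K (Pool.Agent.Helper52.Hemi.fr k K δ) =
        algebraMap E K (c.ω ^ 2) * δ := by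
      rw [hδ, map_neg, map_neg, map_mul, map_mul, map_mul, map_mul, map_inv₀, map_inv₀, c.hgω,
        Pool.Agent.Helper52.Hemi.fr_algebraMap, Pool.Agent.Helper52.Hemi.fr_algebraMap,
        Pool.Agent.Helper52.Hemi.fr_F, Pool.Agent.Helper52.Hemi.fr_F]
      have e1 : Pool.Agent.Helper52.Hemi.cj k E (Pool.Agent.Helper52.Hemi.cj k E (cj k E Y)) =
          cj k E Y := cj_cj c.finE (cj k E Y)
      rw [e1]
      have hω3K : algebraMap E K c.ω ^ 3 = 1 := by rw [← map_pow, hω3, map_one]
      rw [map_pow, mul_inv]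
      have e2 : (algebraMap E K c.ω)⁻¹ = algebraMap E K c.ω ^ 2 := by
        field_simp
        exact hω3K.symm
      rw [e2]
      ring
    have hμ2 : algebraMap E K (algebraMap k E c.i * μ / 2) ^ 2 - δ ^ 3 =
        algebraMap E K (algebraMap k E (c.i * m) ^ 3 / (3 * (algebraMap k E c.i * s))) := by
      have e1 : δ ^ 3 = algebraMap E K (algebraMap k E c.i * cj k E Y ^ 3 * cj k E c.ρ) := by
        have hgi : (c.g⁻¹) ^ 3 = algebraMap E K (cj k E c.ρ) := by
          rw [inv_pow, c.hg3, ← map_inv₀, c.cjρ]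
        have hiK : (algebraMap k K c.i) ^ 2 = -1 := by
          rw [← map_pow, c.hi, map_neg, map_one]
        simp only [map_mul, map_pow]
        rw [hδ, ← hgi, ← hIKE]
        linear_combination (-(algebraMap k K c.i) * (algebraMap E K (cj k E Y)) ^ 3 *
          (c.g⁻¹) ^ 3) * hiK
      rw [e1, ← map_pow, ← map_sub]
      congr 1
      have hmE : 4 * (algebraMap k E m) ^ 3 = 3 * (kap c.toCtx Y μ * s) := by
        rw [← hl]
        have := congrArg (algebraMap k E) hml
        simpa only [map_mul, map_pow, map_ofNat] using this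
      have hiE0 : algebraMap k E c.i ≠ 0 := (map_ne_zero _).2 hi0
      have h4E : (4 : E) ≠ 0 := by
        have : (4 : E) = 2 ^ 2 := by norm_num
        rw [this]; exact pow_ne_zero 2 h2E
      have e3 : algebraMap k E (c.i * m) ^ 3 / (3 * (algebraMap k E c.i * s)) =
          -(kap c.toCtx Y μ) / 4 := by
        rw [map_mul, mul_pow]
        field_simp
        linear_combination (algebraMap k E c.i ^ 2) * hmE +
          (3 * kap c.toCtx Y μ * s) * hi
      rw [e3]
      have hK : kap c.toCtx Y μ = μ ^ 2 + 4 * algebraMap k E c.i * cj k E c.ρ * cj k E Y ^ 3 := rfl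
      rw [hK]
      field_simp
      linear_combination (4 * μ ^ 2) * hi
    have hroot := ev2 (k := k) (F := E) (K := K) c.finE c.tw.finK h2 h3 (c.ω ^ 2)
      (by linear_combination c.ω * hω3 + c.hω)
      (by
        change cj k E (c.ω ^ 2) = _
        rw [map_pow, c.cj_ω])
      (algebraMap k E c.i * s) (by linear_combination s ^ 2 * hi - hs)
      (by
        change cj k E _ = _
        rw [map_mul, cj_algebraMap, hs']; ring)
      (c.i * m) (mul_ne_zero hi0 hm0) δ hδ0 hδσ (algebraMap k E c.i * μ / 2) hμ2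
      (-(nm k E Y)) (-(nm k E μ) / 4)
      (by
        have e1 : Pool.Agent.Helper52.Hemi.tau k K δ =
            -(algebraMap k K c.i * algebraMap E K Y * c.g) := by
          rw [hδ, map_neg, map_mul, map_mul, map_inv₀, htg, inv_inv,
            Pool.Agent.Helper52.Hemi.tau_algebraMap]
          rw [c.tw.tau_F]
          have e1 : Pool.Agent.Helper52.Hemi.cj k E (cj k E Y) = Y := cj_cj c.finE Y
          rw [e1]
        rw [e1, hδ, map_neg, IsScalarTower.algebraMap_apply k E K (nm k E Y),
          nm_formula c.finE, map_mul]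
        have hiK : (algebraMap k K c.i) ^ 2 = -1 := by
          rw [← map_pow, c.hi, map_neg, map_one]
        field_simp
        linear_combination (-(algebraMap E K Y)) * hiK)
      (by
        change _ = _ * cj k E _
        rw [map_div₀, map_neg, nm_formula c.finE, map_div₀, map_mul, cj_algebraMap, map_ofNat,
          map_ofNat]
        have h4E : (4 : E) ≠ 0 := by
          have : (4 : E) = 2 ^ 2 := by norm_num
          rw [this]; exact pow_ne_zero 2 h2E
        field_simp
        linear_combination (-4 * μ * cj k E μ) * hi)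
    have hμ0 : μ ≠ 0 := by
      rintro rfl
      have hY' : cj k E Y ≠ 0 := fun h => hY (cj_eq_zero.1 h)
      have hiE0 : algebraMap k E c.i ≠ 0 := (map_ne_zero _).2 hi0
      have h4E : (4 : E) ≠ 0 := by
        have : (4 : E) = 2 ^ 2 := by norm_num
        rw [this]; exact pow_ne_zero 2 h2E
      unfold kap at hκ
      simp only [map_add, map_mul, map_pow, cj_cj c.finE, cj_algebraMap, map_ofNat,
        map_zero] at hκ
      have e1 : 4 * algebraMap k E c.i * (c.ρ * Y ^ 3 + cj k E c.ρ * cj k E Y ^ 3) = 0 := by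
        linear_combination hκ
      have e2 := (mul_eq_zero.1 e1).resolve_left (mul_ne_zero h4E hiE0)
      apply c.hρ3 (-(c.ρ * Y / cj k E Y))
      have hρ := c.hρ
      field_simp
      linear_combination (-(c.ρ ^ 2)) * e2 + (c.ρ * cj k E Y ^ 3) * hρ
    have hN0 : nm k E μ ≠ 0 := fun h => hμ0 ((nm_eq_zero c.finE).1 h)
    have hC0 : -(nm k E μ / 2) ≠ 0 := neg_ne_zero.2 (div_ne_zero hN0 h2)
    have q1 : 3 * (-(nm k E Y)) = -3 * nm k E Y := by ring
    have q2 : (c.i * m) ^ 2 = -m ^ 2 := by
      rw [mul_pow, c.hi]; ring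
    have q3 : 2 * (-(nm k E μ) / 4) = -(nm k E μ / 2) := by
      field_simp
      ring
    rw [q1, q2, q3] at hroot
    rcases ev_pm h2 h3 hm1 _ _ _ hC0 hroot with h | h
    · left; rw [hS, h]; ring
    · right; rw [hS, h]; ring

end Pool.Agent.Helper61.Hemi
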